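import Pool.Agent.H697.SF.Final

/-!
# Small-set expansion in regular graphs with dense closed neighbourhoods
-/

namespace Pool.Agent.H697.SF

open Finset Pool.Agent.NPC Pool.Agent.H697.SSE

/-- The mean value of the density of a closed neighbourhood is at least `γ`: on average over the
vertices `v` the closed neighbourhood of `v` has at least `γ d (d + 1)` ordered pairs of adjacent
vertices. -/
def Dense (γ : ℚ) (I : Inst) : Prop :=
  γ * (nV I * (dg I * (dg I + 1))) ≤
    ((∑ v ∈ range (nV I), SSE.inner (darts I).toFinset (cN (nV I) (darts I).toFinset v) : ℕ) : ℚ)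

variable {n d : ℕ} {A : Finset (ℕ × ℕ)}

/-- Adding a closed neighbourhood to a dense set. -/
theorem stepC (h : RG n d A) {p q : ℕ}
    (hdense : p * (n * (d * (d + 1))) ≤ q * ∑ v ∈ range n, SSE.inner A (cN n A v))
    {S : Finset ℕ} (hS : S ⊆ range n) (hSn : S.card + (d + 1) ≤ n)
    (hSi : p * (d * S.card) ≤ q * SSE.inner A S) :
    ∃ v < n, ¬ cN n A v ⊆ S ∧
      p * (d * (S ∪ cN n A v).card) ≤ q * SSE.inner A (S ∪ cN n A v) := by
  by_contra hcon
  push Not at hcon
  set V0 := (range n).filter fun v => cN n A v ⊆ S with hV0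
  have hV0S : V0 ⊆ S := by
    intro v hv
    obtain ⟨h1, h2⟩ := mem_filter.1 hv
    exact h2 (mem_filter.2 ⟨h1, Or.inl rfl⟩)
  have hV0c := card_le_card hV0S
  set a : ℤ := q * SSE.inner A S with ha
  set b : ℤ := p * (d * S.card) with hb
  have hab : b ≤ a := by
    rw [ha, hb]
    exact_mod_cast hSi
  -- lower bound
  have h1 : ((n : ℤ) - (d + 1)) * (a - b) ≤ ∑ v ∈ range n,
      ((q : ℤ) * SSE.inner A (S ∪ cN n A v) - p * (d * (S ∪ cN n A v).card)) := by
    have h2 : ∀ v ∈ range n, a + (q : ℤ) * SSE.inner A (cN n A v) -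
        q * SSE.inner A (S ∩ cN n A v) - (b +
        p * (d * (d + 1)) - p * (d * (S ∩ cN n A v).card)) ≤
        (q : ℤ) * SSE.inner A (S ∪ cN n A v) - p * (d * (S ∪ cN n A v).card) := by
      intro v hv
      have hv' := mem_range.1 hv
      have h3 := inner_inter_add (A := A) S (cN n A v)
      have h5 := card_union_add_card_inter S (cN n A v)
      rw [card_cN h hv'] at h5
      have h6 : q * SSE.inner A S + q * SSE.inner A (cN n A v) ≤
          q * SSE.inner A (S ∪ cN n A v) + q * SSE.inner A (S ∩ cN n A v) := by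
        rw [← Nat.mul_add, ← Nat.mul_add]
        exact Nat.mul_le_mul_left q h3
      have h7 : p * (d * (S ∪ cN n A v).card) + p * (d * (S ∩ cN n A v).card) =
          p * (d * S.card) + p * (d * (d + 1)) := by
        rw [← Nat.mul_add, ← Nat.mul_add, h5, Nat.mul_add, Nat.mul_add]
      have h6' : (q * SSE.inner A S + q * SSE.inner A (cN n A v) : ℤ) ≤
          q * SSE.inner A (S ∪ cN n A v) + q * SSE.inner A (S ∩ cN n A v) := by
        exact_mod_cast h6
      have h7' : (p * (d * (S ∪ cN n A v).card) + p * (d * (S ∩ cN n A v).card) : ℤ) =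
          p * (d * S.card) + p * (d * (d + 1)) := by exact_mod_cast h7
      linarith
    refine le_trans ?_ (sum_le_sum h2)
    have h3 := sum_inner_inter h hS
    have h4 := sum_card_inter h hS
    have h3' : (q : ℤ) * ∑ v ∈ range n, (SSE.inner A (S ∩ cN n A v) : ℤ) ≤ (d + 1) * a := by
      have h5 := Nat.mul_le_mul_left q h3
      have h6 : q * ((d + 1) * SSE.inner A S) = (d + 1) * (q * SSE.inner A S) := by ring
      rw [h6] at h5
      rw [ha]
      exact_mod_cast h5
    have h4' : (p : ℤ) * (d * ∑ v ∈ range n, ((S ∩ cN n A v).card : ℤ)) = (d + 1) * b := by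
      have h5 := congrArg (fun x => p * (d * x)) h4
      have h6 : p * (d * ((d + 1) * S.card)) = (d + 1) * (p * (d * S.card)) := by ring
      beta_reduce at h5
      rw [h6] at h5
      rw [hb]
      exact_mod_cast h5
    have h6 : (p * (n * (d * (d + 1))) : ℤ) ≤
        q * ∑ v ∈ range n, (SSE.inner A (cN n A v) : ℤ) := by exact_mod_cast hdense
    have h5 : ∑ v ∈ range n, (a + (q : ℤ) * SSE.inner A (cN n A v) -
        q * SSE.inner A (S ∩ cN n A v) - (b +
        p * (d * (d + 1)) - p * (d * (S ∩ cN n A v).card))) = n * (a - b) +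
        (q * ∑ v ∈ range n, (SSE.inner A (cN n A v) : ℤ) - p * (n * (d * (d + 1)))) -
        q * ∑ v ∈ range n, (SSE.inner A (S ∩ cN n A v) : ℤ) +
        p * (d * ∑ v ∈ range n, ((S ∩ cN n A v).card : ℤ)) := by
      simp only [sum_sub_distrib, sum_add_distrib, ← mul_sum, sum_const, card_range,
        nsmul_eq_mul]
      ring
    rw [h5, h4']
    linarith
  -- upper bound
  have h2 : ∑ v ∈ range n,
      ((q : ℤ) * SSE.inner A (S ∪ cN n A v) - p * (d * (S ∪ cN n A v).card)) ≤
      V0.card * (a - b) - (n - V0.card) := by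
    have hsub : V0 ⊆ range n := filter_subset _ _
    rw [← sum_sdiff hsub]
    have h3 : ∑ v ∈ V0, ((q : ℤ) * SSE.inner A (S ∪ cN n A v) -
        p * (d * (S ∪ cN n A v).card)) = V0.card * (a - b) := by
      rw [← nsmul_eq_mul, ← sum_const]
      refine sum_congr rfl fun v hv => ?_
      rw [union_eq_left.2 (mem_filter.1 hv).2]
    have h4 : ∑ v ∈ range n \ V0, ((q : ℤ) * SSE.inner A (S ∪ cN n A v) -
        p * (d * (S ∪ cN n A v).card)) ≤ ∑ v ∈ range n \ V0, (-1 : ℤ) := by
      refine sum_le_sum fun v hv => ?_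
      obtain ⟨h5, h6⟩ := mem_sdiff.1 hv
      have h7 := hcon v (mem_range.1 h5) fun h8 => h6 (mem_filter.2 ⟨h5, h8⟩)
      have h8 : (q * SSE.inner A (S ∪ cN n A v) : ℤ) < p * (d * (S ∪ cN n A v).card) := by
        exact_mod_cast h7
      linarith
    rw [sum_const, card_sdiff_of_subset hsub, card_range, nsmul_eq_mul] at h4
    have h5 : V0.card ≤ n := by
      have := card_le_card hsub
      rwa [card_range] at this
    rw [Nat.cast_sub h5] at h4
    rw [h3]
    linarith
  have h3 := h1.trans h2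
  have h4 : (V0.card : ℤ) + (d + 1) ≤ n := by
    have : V0.card + (d + 1) ≤ n := by omega
    exact_mod_cast this
  have h5 : (0 : ℤ) ≤ d := by positivity
  nlinarith

/-- Dense sets of any size. -/
theorem exists_denseC (h : RG n d A) {p q : ℕ}
    (hdense : p * (n * (d * (d + 1))) ≤ q * ∑ v ∈ range n, SSE.inner A (cN n A v))
    {k : ℕ} (hk : k ≤ n) :
    ∃ S ⊆ range n, S.card ≤ k ∧ k ≤ S.card + d ∧ p * (d * S.card) ≤ q * SSE.inner A S := by
  have key : ∀ (m : ℕ) (S : Finset ℕ), S ⊆ range n → S.card ≤ k → k ≤ S.card + m →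
      p * (d * S.card) ≤ q * SSE.inner A S →
      ∃ S ⊆ range n, S.card ≤ k ∧ k ≤ S.card + d ∧ p * (d * S.card) ≤ q * SSE.inner A S := by
    intro m
    induction m with
    | zero =>
      intro S h1 h2 h3 h4
      exact ⟨S, h1, h2, by omega, h4⟩
    | succ m ih =>
      intro S h1 h2 h3 h4
      by_cases h5 : k ≤ S.card + d
      · exact ⟨S, h1, h2, h5, h4⟩
      · obtain ⟨v, hv, h6, h7⟩ := stepC h hdense h1 (by omega) h4
        have h8 : (S ∪ cN n A v).card ≤ S.card + (d + 1) := by
          rw [← card_cN h hv]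
          exact card_union_le _ _
        have h9 : S.card < (S ∪ cN n A v).card := card_lt_card
          ⟨subset_union_left, fun h10 => h6 (subset_union_right.trans h10)⟩
        exact ih (S ∪ cN n A v) (union_subset h1 (filter_subset _ _)) (by omega) (by omega) h7
  exact key k ∅ (empty_subset _) (by simp) (by simp) (by simp)

/-- With dense closed neighbourhoods, small degree excludes no-instances. -/
theorem no_degreeC {γ : ℚ} (h0 : 0 ≤ γ) (h1' : γ ≤ 1) {ε δ : ℚ} (hδ1 : δ ≤ 1)
    {I : Inst} (hI : Dense γ I)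
    (hN : No (γ - ε) δ I) {k : ℕ} (hk : (k : ℚ) = δ * nV I) : ε * k ≤ dg I := by
  obtain ⟨h, k', hk0, hk', hno⟩ := hN
  obtain rfl : k = k' := by exact_mod_cast hk.trans hk'.symm
  have hrg := h.rg
  unfold Dense at hI
  set A := (darts I).toFinset with hA
  set d := dg I with hd
  set n := nV I with hn'
  have hd0 : (0 : ℚ) < d := by exact_mod_cast h.1
  have hk0' : (0 : ℚ) < k := by exact_mod_cast hk0
  have hkn : k ≤ n := by
    have h6 : (k : ℚ) ≤ n := by
      rw [hk]
      have : (0 : ℚ) ≤ n := by positivity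
      nlinarith
    exact_mod_cast h6
  have hden : (0 : ℚ) < γ.den := by exact_mod_cast γ.den_pos
  have hpq : (γ.num.toNat : ℚ) = γ * γ.den := by
    have h2 : (γ.num.toNat : ℤ) = γ.num := Int.toNat_of_nonneg (Rat.num_nonneg.2 h0)
    have h3 : ((γ.num.toNat : ℤ) : ℚ) = (γ.num : ℚ) := by rw [h2]
    rw [Int.cast_natCast] at h3
    rw [h3, Rat.mul_den_eq_num]
  have hdense : γ.num.toNat * (n * (d * (d + 1))) ≤
      γ.den * ∑ v ∈ range n, SSE.inner A (cN n A v) := by
    have h2 : ((γ.num.toNat * (n * (d * (d + 1))) : ℕ) : ℚ) ≤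
        ((γ.den * ∑ v ∈ range n, SSE.inner A (cN n A v) : ℕ) : ℚ) := by
      rw [Nat.cast_mul, Nat.cast_mul, hpq]
      push_cast at hI ⊢
      calc γ * γ.den * (n * (d * (d + 1))) = γ.den * (γ * (n * (d * (d + 1)))) := by ring
        _ ≤ _ := mul_le_mul_of_nonneg_left hI hden.le
    exact_mod_cast h2
  obtain ⟨S, hS, hSc, hSk, hSi⟩ := exists_denseC hrg hdense hkn
  obtain ⟨T, hST, hT, hTc⟩ := exists_subsuperset_card_eq hS hSc (by rw [card_range]; exact hkn)
  have h1 := hno T hT hTc
  rw [h.cut_eq T] at h1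
  have h2 := hrg.inner_add_outer hT
  rw [hTc] at h2
  have h3 : (SSE.inner A T : ℚ) + outer A T = d * k := by exact_mod_cast h2
  have h4 : (SSE.inner A S : ℚ) ≤ SSE.inner A T := by exact_mod_cast RG.inner_mono hST
  have h5 : (SSE.inner A S : ℚ) ≤ (γ - ε) * (d * k) := by linarith
  have h6 : γ * (d * S.card : ℚ) ≤ SSE.inner A S := by
    have h8 : ((γ.num.toNat * (d * S.card) : ℕ) : ℚ) ≤ ((γ.den * SSE.inner A S : ℕ) : ℚ) := by
      exact_mod_cast hSi
    rw [Nat.cast_mul, Nat.cast_mul, hpq] at h8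
    push_cast at h8
    have h9 : (γ.den : ℚ) * (γ * (d * S.card)) ≤ γ.den * SSE.inner A S := by
      calc (γ.den : ℚ) * (γ * (d * S.card)) = γ * γ.den * (d * S.card) := by ring
        _ ≤ _ := h8
    exact le_of_mul_le_mul_left h9 hden
  have h7 : (k : ℚ) ≤ S.card + d := by exact_mod_cast hSk
  have h8 : (d : ℚ) * (γ * S.card) ≤ d * ((γ - ε) * k) := by
    calc (d : ℚ) * (γ * S.card) = γ * (d * S.card) := by ring
      _ ≤ (γ - ε) * (d * k) := h6.trans h5
      _ = _ := by ring
  have h9 := le_of_mul_le_mul_left h8 hd0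
  have h10 : γ * k ≤ γ * (S.card + d) := mul_le_mul_of_nonneg_left h7 h0
  have h11 : γ * d ≤ 1 * d := mul_le_mul_of_nonneg_right h1' hd0.le
  linarith

end Pool.Agent.H697.SF
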