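import Pool.Agent.H697.SF.Clus

/-!
# Small-set expansion in regular graphs with many triangles
-/

namespace Pool.Agent.H697.SF

open Finset Pool.Agent.NPC Pool.Agent.H697.SSE

/-- The fraction of closed paths of length `2` is at least `γ`: there are at least `γ n d (d - 1)`
ordered triples `(v, x, y)` of pairwise adjacent vertices. -/
def Triangles (γ : ℚ) (I : Inst) : Prop :=
  γ * (nV I * (dg I * (dg I - 1))) ≤
    ((∑ v ∈ range (nV I), SSE.inner (darts I).toFinset (nN (nV I) (darts I).toFinset v) : ℕ) : ℚ)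

/-- No-instances are rejected. -/
theorem not_acceptT_of_noC {γ : ℚ} (h0 : 0 ≤ γ) (h1' : γ ≤ 1) {b c : ℕ} {ε δ : ℚ} (hε : 0 < ε)
    (hb : 5 < b * ε) (hc : 1 < c * ε) (hδ : 0 < δ) (hδ1 : δ ≤ 1) {M : ℕ} {I : Inst}
    (hI : Dense γ I) (hN : No (γ - ε) δ I) :
    ¬ acceptT b c δ.num.toNat δ.den M I = true := by
  obtain ⟨h, k, hk0, hk, hno⟩ := id hN
  have hkq : k * δ.den = δ.num.toNat * nV I := by
    rw [mul_comm]
    exact (num_den hδ hk).symm
  have hq : 0 < δ.den := δ.den_pos
  have hrg := h.rg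
  have hd0 : (0 : ℚ) < dg I := by exact_mod_cast h.1
  have hk0' : (0 : ℚ) < k := by exact_mod_cast hk0
  have hkn : k ≤ nV I := by
    have h6 : (k : ℚ) ≤ nV I := by
      rw [hk]
      have : (0 : ℚ) ≤ nV I := by positivity
      nlinarith
    exact_mod_cast h6
  intro hacc
  unfold acceptT at hacc
  rw [Bool.or_eq_true, decide_eq_true_eq, List.any_eq_true] at hacc
  rcases hacc with hacc | ⟨t, _, hacc⟩
  · have h1 := no_degreeC h0 h1' hδ1 hI hN hk
    rw [← hkq] at hacc
    have h2 : c * dg I < k := by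
      apply Nat.lt_of_mul_lt_mul_left (a := δ.den)
      calc δ.den * (c * dg I) = c * (δ.den * dg I) := by ring
        _ < k * δ.den := hacc
        _ = _ := mul_comm _ _
    have h3 : (c * dg I : ℚ) < k := by exact_mod_cast h2
    have h4 : ε * (c * dg I) < ε * k := mul_lt_mul_of_pos_left h3 hε
    have h5 : 1 * (dg I : ℚ) < (c * ε) * dg I := mul_lt_mul_of_pos_right hc hd0
    linarith
  · obtain ⟨h1, h2⟩ := (goodT_of h hq hkq).1 hacc
    set A := (darts I).toFinset with hA
    set U := nU (nV I) A t with hU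
    have hUn : U ⊆ range (nV I) := filter_subset _ _
    have hinner : ∀ T ⊆ range (nV I), T.card = k →
        (SSE.inner A T : ℚ) ≤ (1 - ε) * (dg I * k) := by
      intro T hT hTk
      have h3 := hno T hT hTk
      rw [h.cut_eq T] at h3
      have h4 := hrg.inner_add_outer hT
      rw [hTk] at h4
      have h5 : (SSE.inner A T : ℚ) + outer A T = dg I * k := by exact_mod_cast h4
      have h6 : (0 : ℚ) < dg I * k := by positivity
      have h7 : (γ - ε) * (dg I * k : ℚ) ≤ (1 - ε) * (dg I * k) :=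
        mul_le_mul_of_nonneg_right (by linarith) h6.le
      linarith
    have h2' : (b * (dg I * k) : ℚ) ≤ b * SSE.inner A U + 3 * (dg I * k) := by exact_mod_cast h2
    have hpos : (0 : ℚ) < dg I * k := by positivity
    have hb0 : (0 : ℚ) ≤ b := by positivity
    rcases Nat.lt_or_ge k U.card with h3 | h3
    · obtain ⟨T, hTU, hTk⟩ := exists_subset_card_eq h3.le
      have h4 := hinner T (hTU.trans hUn) hTk
      have h5 := hrg.inner_le U T
      rw [inter_eq_right.2 hTU] at h5
      have h6 : (U \ T).card + k = U.card := by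
        have := card_sdiff_add_card_eq_card hTU
        omega
      have h7 : b * (U \ T).card ≤ k := by
        have h8 : b * (U \ T).card + b * k = b * U.card := by rw [← Nat.mul_add, h6]
        have h9 : (b + 1) * k = b * k + k := by ring
        omega
      have h8 : (SSE.inner A U : ℚ) ≤ SSE.inner A T + 2 * (dg I * (U \ T).card) := by
        exact_mod_cast h5
      have h9 : (b * (U \ T).card : ℚ) ≤ k := by exact_mod_cast h7
      have h10 : (b * SSE.inner A U : ℚ) ≤ b * ((1 - ε) * (dg I * k)) + 2 * (dg I * k) := by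
        calc (b * SSE.inner A U : ℚ) ≤ b * (SSE.inner A T + 2 * (dg I * (U \ T).card)) :=
              mul_le_mul_of_nonneg_left h8 hb0
          _ = b * SSE.inner A T + 2 * (dg I * (b * (U \ T).card)) := by ring
          _ ≤ b * ((1 - ε) * (dg I * k)) + 2 * (dg I * k) := by
              refine add_le_add (mul_le_mul_of_nonneg_left h4 hb0) ?_
              exact mul_le_mul_of_nonneg_left (mul_le_mul_of_nonneg_left h9 hd0.le) (by norm_num)
      nlinarith
    · obtain ⟨T, hUT, hT, hTk⟩ := exists_subsuperset_card_eq hUn h3 (by rw [card_range]; exact hkn)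
      have h4 := hinner T hT hTk
      have h5 : (SSE.inner A U : ℚ) ≤ SSE.inner A T := by exact_mod_cast RG.inner_mono hUT
      have h10 : (b * SSE.inner A U : ℚ) ≤ b * ((1 - ε) * (dg I * k)) :=
        mul_le_mul_of_nonneg_left (h5.trans h4) hb0
      nlinarith

/-- **The easy side.** -/
theorem easy_dense {γ : ℚ} (h0 : 0 ≤ γ) (h1 : γ ≤ 1) {ε : ℚ} (hε : 0 < ε) :
    ∃ η₁ : ℚ, 0 < η₁ ∧ ∀ η δ : ℚ, η ≤ η₁ → 0 < δ → δ ≤ 1 →
      Easy (Dense γ) (Yes η δ) (No (γ - ε) δ) := by
  obtain ⟨b, hb⟩ := exists_nat_gt (5 / ε)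
  obtain ⟨c, hc⟩ := exists_nat_gt (1 / ε)
  rw [div_lt_iff₀ hε] at hb hc
  have hb0 : 0 < b := by
    rcases Nat.eq_zero_or_pos b with h0 | h0
    · rw [h0, Nat.cast_zero, zero_mul] at hb
      linarith
    · exact h0
  have hb1 : (0 : ℚ) < 4 * b ^ 2 := by positivity
  refine ⟨1 / (4 * b ^ 2), by positivity, fun η δ hη hδ hδ1 => ?_⟩
  exact ⟨fun I => acceptT b c δ.num.toNat δ.den (2 * b * c) I = true,
    inPP_of (poly_acceptT _ _ _ _ _) fun _ => Iff.rfl, fun I hI =>
      ⟨acceptT_of_yes hb0 (by rwa [le_div_iff₀ hb1] at hη) hδ,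
        not_acceptT_of_noC h0 h1 hε hb hc hδ hδ1 hI⟩⟩

theorem Dense.mono {γ γ' : ℚ} (h : γ ≤ γ') {I : Inst} (hI : Dense γ' I) : Dense γ I :=
  (mul_le_mul_of_nonneg_right h (by positivity)).trans hI

/-- The conjecture for graphs with dense closed neighbourhoods. -/
theorem collapse_dense {γ : ℚ} (hγ : 0 < γ) (h : SSEH (Dense γ)) :
    ∀ L : Set (List Bool), InNP L → InP L := by
  have h0 : 0 < min γ 1 := lt_min hγ one_pos
  obtain ⟨η₁, hη₁, he⟩ := easy_dense h0.le (min_le_right γ 1) (half_pos h0)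
  set η : ℚ := min η₁ (min (min γ 1 / 2) (1 / 4)) with hη
  have h2 : η ≤ η₁ := min_le_left _ _
  have h3 : η ≤ min γ 1 / 2 := (min_le_right _ _).trans (min_le_left _ _)
  have h4 : η ≤ 1 / 4 := (min_le_right _ _).trans (min_le_right _ _)
  have h5 : 0 < η := lt_min hη₁ (lt_min (by linarith) (by norm_num))
  obtain ⟨δ, hδ, hδ1, hh⟩ := h η h5 (by linarith)
  exact hh.collapse ((he η δ h2 hδ (by linarith)).mono (fun _ h => h.mono (min_le_left γ 1))
    (fun _ h => h) fun _ h => No.mono (by linarith) h)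

theorem dense_of_starFree {r : ℕ} (hr : 1 ≤ r) {I : Inst} (h : IsReg I) (hI : StarFree r I) :
    Dense (1 / r) I := by
  have hrg := h.rg
  have hr0 : (0 : ℚ) < r := by exact_mod_cast hr
  have h1 : ∑ v ∈ range (nV I), dg I * (dg I + 1) ≤ ∑ v ∈ range (nV I),
      r * SSE.inner (darts I).toFinset (cN (nV I) (darts I).toFinset v) :=
    sum_le_sum fun v hv => inner_cN hrg hr (mem_range.1 hv) fun Y hY hYi =>
      ind_of_starFree h hI (mem_range.1 hv) hY hYi
  rw [sum_const, card_range, smul_eq_mul, ← mul_sum] at h1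
  unfold Dense
  rw [div_mul_eq_mul_div, one_mul, div_le_iff₀ hr0, mul_comm _ (r : ℚ)]
  exact_mod_cast h1

theorem inner_cN_eq {n d : ℕ} {A : Finset (ℕ × ℕ)} (h : RG n d A) {v : ℕ} (hv : v < n) :
    SSE.inner A (cN n A v) = SSE.inner A (nN n A v) + 2 * d := by
  have hvn : v ∉ nN n A v := fun h1 => h.irr _ ((mem_nN h).1 h1) rfl
  have h2 := h.inner_erase (mem_insert_self v (nN n A v))
  rw [erase_insert hvn] at h2
  have h3 : dgS A (insert v (nN n A v)) v = d := by
    rw [dgS_eq, filter_insert, if_neg (fun h1 => h.irr _ h1 rfl)]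
    rw [filter_true_of_mem fun x hx => (mem_nN h).1 hx, card_nN h hv]
  rw [h3] at h2
  rw [cN_eq h hv, ← h2]

/-- Graphs with many triangles have dense closed neighbourhoods. -/
theorem dense_of_triangles {γ : ℚ} (hγ : γ ≤ 1) {I : Inst} (h : IsReg I) (hI : Triangles γ I) :
    Dense γ I := by
  have hrg := h.rg
  have h1 : ∑ v ∈ range (nV I), SSE.inner (darts I).toFinset (cN (nV I) (darts I).toFinset v) =
      ∑ v ∈ range (nV I), SSE.inner (darts I).toFinset (nN (nV I) (darts I).toFinset v) +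
        nV I * (2 * dg I) := by
    rw [sum_congr rfl fun v hv => inner_cN_eq hrg (mem_range.1 hv), sum_add_distrib, sum_const,
      card_range, smul_eq_mul]
  unfold Dense
  unfold Triangles at hI
  rw [h1, Nat.cast_add]
  push_cast at hI ⊢
  have h2 : γ * ((nV I : ℚ) * (2 * dg I)) ≤ 1 * ((nV I : ℚ) * (2 * dg I)) :=
    mul_le_mul_of_nonneg_right hγ (by positivity)
  linarith

/-- Passing to a larger class. -/
theorem hard_mono_reg {Cl Y N Cl' : Inst → Prop} (h : Hard Cl Y N) (hY : ∀ I, Y I → IsReg I)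
    (hN : ∀ I, N I → IsReg I) (hCl : ∀ I, IsReg I → Cl I → Cl' I) : Hard Cl' Y N := by
  intro L hL
  obtain ⟨f, hf, hfx⟩ := h L hL
  refine ⟨f, hf, fun x => ?_⟩
  obtain ⟨I, h2, h3, h5, h6⟩ := hfx x
  have hr : IsReg I := by
    by_cases hx : x ∈ L
    · exact hY I (h5 hx)
    · exact hN I (h6 hx)
  exact ⟨I, h2, hCl I hr h3, h5, h6⟩

/-- The conjecture follows from hardness close to the thresholds. -/
theorem sseh_of_dense (h : ∀ r : ℕ, 2 ≤ r → ∀ η : ℚ, 0 < η → ∃ δ : ℚ, 0 < δ ∧ δ ≤ 1 / 2 ∧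
    Hard (Dense (1 / r)) (Yes η δ) (No (1 / r + η) δ)) : SSEH fun _ => True := by
  intro η hη _
  obtain ⟨r, hr⟩ := exists_nat_ge (2 / η)
  have hr' : (2 / η : ℚ) ≤ ((r + 2 : ℕ) : ℚ) := by
    push_cast
    linarith
  obtain ⟨δ, hδ, hδ2, hh⟩ := h (r + 2) (by omega) (η / 2) (by linarith)
  refine ⟨δ, hδ, hδ2, hh.mono (fun _ _ => trivial) (fun _ h => Yes.mono (by linarith) h)
    fun _ h => No.mono ?_ h⟩
  have h1 : (1 : ℚ) / ((r + 2 : ℕ) : ℚ) ≤ η / 2 := by
    rw [div_le_iff₀ (by positivity)]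
    rw [div_le_iff₀ hη] at hr'
    linarith
  linarith

end Pool.Agent.H697.SF
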