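import Pool.Agent.H697.SF.Local

/-!
# Small-set expansion in regular graphs without induced stars: the algorithm
-/

namespace Pool.Agent.H697.SF

open Finset Pool.Agent.NPC Pool.Agent.H697.SSE

/-- All lists of at most `m` entries of the list `l`. -/
def tup (l : List ℕ) : ℕ → List (List ℕ)
  | 0 => [[]]
  | m + 1 => tup l m ++ (tup l m).flatMap fun t => l.map fun v => v :: t

theorem mem_tup {l : List ℕ} : ∀ (m : ℕ) (t : List ℕ), t.length ≤ m → (∀ v ∈ t, v ∈ l) →
    t ∈ tup l m
  | 0, t, h, _ => by
    have : t = [] := List.length_eq_zero_iff.1 (by omega)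
    rw [this]
    exact List.mem_singleton.2 rfl
  | m + 1, [], _, _ => List.mem_append_left _ (mem_tup m [] (Nat.zero_le _) (by simp))
  | m + 1, v :: t, h, hl => by
    refine List.mem_append_right _ (List.mem_flatMap.2 ⟨t, mem_tup m t ?_ fun w hw =>
      hl w (List.mem_cons_of_mem _ hw), List.mem_map.2 ⟨v, hl v List.mem_cons_self, rfl⟩⟩)
    rw [List.length_cons] at h
    omega

/-- The vertex `x` is adjacent to an entry of `t`. -/
def nbT (E : List (ℕ × ℕ)) (t : List ℕ) (x : ℕ) : Bool := t.any fun v => decide ((v, x) ∈ E)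

/-- The number of pairs of the list whose first entry is adjacent to an entry of `t`. -/
def cnt1 (E : List (ℕ × ℕ)) (t : List ℕ) : ℕ := (E.filter fun e => nbT E t e.1).length

/-- The number of pairs of the list whose entries are adjacent to entries of `t`. -/
def cnt2 (E : List (ℕ × ℕ)) (t : List ℕ) : ℕ :=
  (E.filter fun e => nbT E t e.1 && nbT E t e.2).length

/-- The neighbourhood of `t` has at most `(1 + 1 / b) k` elements, and at least
`(1 - 3 / b) d k` inner pairs. -/
def goodT (b p q : ℕ) (I : Inst) (t : List ℕ) : Bool :=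
  decide (b * (q * cnt1 (darts I) t) ≤ (b + 1) * (dg I * (p * nV I))) &&
  decide (b * (dg I * (p * nV I)) ≤ b * (q * cnt2 (darts I) t) + 3 * (dg I * (p * nV I)))

/-- The answer of the algorithm. -/
def acceptT (b c p q M : ℕ) (I : Inst) : Bool :=
  decide (c * (q * dg I) < p * nV I) || (tup ((darts I).map Prod.fst) M).any (goodT b p q I)

/-! ### Polynomial time -/

section
variable {α : Type} [TEnc α]

theorem poly_tup {l : α → List ℕ} (hl : Poly l) : ∀ m : ℕ, Poly (fun a => tup (l a) m)
  | 0 => NPC.Poly.const [[]]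
  | m + 1 => by
    refine Poly.append (poly_tup hl m) ?_
    refine Poly.flatMap (F := fun (a : α) (t : List ℕ) => (l a).map fun v => v :: t)
      (poly_tup hl m) ?_
    refine NPC.Poly.map (F := fun (p : α × List ℕ) (v : ℕ) => v :: p.2)
      (hl.comp (Poly.fst Poly.id)) ?_
    exact Poly.cons (Poly.snd Poly.id) (Poly.snd (Poly.fst Poly.id))

theorem poly_nbT {E : α → List (ℕ × ℕ)} {t : α → List ℕ} {x : α → ℕ} (hE : Poly E) (ht : Poly t)
    (hx : Poly x) : Poly (fun a => nbT (E a) (t a) (x a)) := by
  unfold nbT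
  refine Poly.any (p := fun a (v : ℕ) => decide ((v, x a) ∈ E a)) ht ?_
  exact poly_mem (Poly.pair (Poly.snd Poly.id) (hx.comp (Poly.fst Poly.id)))
    (hE.comp (Poly.fst Poly.id))

theorem poly_cnt1 {E : α → List (ℕ × ℕ)} {t : α → List ℕ} (hE : Poly E) (ht : Poly t) :
    Poly (fun a => cnt1 (E a) (t a)) := by
  unfold cnt1
  refine Poly.length (Poly.filter (p := fun a (e : ℕ × ℕ) => nbT (E a) (t a) e.1) hE ?_)
  exact poly_nbT (hE.comp (Poly.fst Poly.id)) (ht.comp (Poly.fst Poly.id))
    (Poly.fst (Poly.snd Poly.id))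

theorem poly_cnt2 {E : α → List (ℕ × ℕ)} {t : α → List ℕ} (hE : Poly E) (ht : Poly t) :
    Poly (fun a => cnt2 (E a) (t a)) := by
  unfold cnt2
  refine Poly.length (Poly.filter (p := fun a (e : ℕ × ℕ) => nbT (E a) (t a) e.1 &&
    nbT (E a) (t a) e.2) hE (Poly.and ?_ ?_))
  · exact poly_nbT (hE.comp (Poly.fst Poly.id)) (ht.comp (Poly.fst Poly.id))
      (Poly.fst (Poly.snd Poly.id))
  · exact poly_nbT (hE.comp (Poly.fst Poly.id)) (ht.comp (Poly.fst Poly.id))
      (Poly.snd (Poly.snd Poly.id))

end

theorem poly_goodT (b p q : ℕ) : Poly (fun x : Inst × List ℕ => goodT b p q x.1 x.2) := by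
  unfold goodT
  have i : Poly (fun x : Inst × List ℕ => x) := Poly.id
  have hE := poly_darts.comp (Poly.fst i)
  have hk : Poly (fun x : Inst × List ℕ => dg x.1 * (p * nV x.1)) :=
    Poly.mul (poly_dg.comp (Poly.fst i)) (Poly.mul (NPC.Poly.const p) (poly_nV.comp (Poly.fst i)))
  refine Poly.and (Poly.decide_le (Poly.mul (NPC.Poly.const b) (Poly.mul (NPC.Poly.const q)
    (poly_cnt1 hE (Poly.snd i)))) (Poly.mul (NPC.Poly.const (b + 1)) hk))
    (Poly.decide_le (Poly.mul (NPC.Poly.const b) hk) (Poly.add (Poly.mul (NPC.Poly.const b)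
      (Poly.mul (NPC.Poly.const q) (poly_cnt2 hE (Poly.snd i))))
      (Poly.mul (NPC.Poly.const 3) hk)))

theorem poly_acceptT (b c p q M : ℕ) : Poly (acceptT b c p q M) := by
  unfold acceptT
  refine Poly.or (Poly.decide_lt (Poly.mul (NPC.Poly.const c) (Poly.mul (NPC.Poly.const q) poly_dg))
    (Poly.mul (NPC.Poly.const p) poly_nV)) ?_
  refine Poly.any (p := fun (I : Inst) (t : List ℕ) => goodT b p q I t) (poly_tup ?_ M)
    (poly_goodT b p q)
  exact NPC.Poly.map (F := fun (_ : Inst) (e : ℕ × ℕ) => e.1) poly_darts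
    (Poly.fst (Poly.snd Poly.id))

/-! ### Analysis -/

/-- The union of the neighbourhoods of the entries of `t`. -/
def nU (n : ℕ) (A : Finset (ℕ × ℕ)) (t : List ℕ) : Finset ℕ :=
  (range n).filter fun x => ∃ v ∈ t, (v, x) ∈ A

theorem nbT_iff {I : Inst} (h : IsReg I) {t : List ℕ} {x : ℕ} : nbT (darts I) t x = true ↔
    x ∈ nU (nV I) (darts I).toFinset t := by
  unfold nbT nU
  rw [List.any_eq_true]
  simp only [decide_eq_true_eq, mem_filter, mem_range, List.mem_toFinset]
  constructor
  · rintro ⟨v, hv, hvx⟩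
    exact ⟨(h.2.2.1 _ hvx).2.1, v, hv, hvx⟩
  · rintro ⟨_, v, hv, hvx⟩
    exact ⟨v, hv, hvx⟩

theorem cnt1_eq {I : Inst} (h : IsReg I) (t : List ℕ) :
    cnt1 (darts I) t = dg I * (nU (nV I) (darts I).toFinset t).card := by
  unfold cnt1
  rw [filter_toFinset_card _ h.2.1, ← card_darts h (R := nU (nV I) (darts I).toFinset t)
    (filter_subset _ _)]
  congr 1
  ext e
  rw [mem_filter, mem_filter, nbT_iff h]

theorem cnt2_eq {I : Inst} (h : IsReg I) (t : List ℕ) :
    cnt2 (darts I) t = SSE.inner (darts I).toFinset (nU (nV I) (darts I).toFinset t) := by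
  unfold cnt2 SSE.inner
  rw [filter_toFinset_card _ h.2.1]
  congr 1
  ext e
  rw [mem_filter, mem_filter, Bool.and_eq_true, nbT_iff h, nbT_iff h]

variable {n d : ℕ} {A : Finset (ℕ × ℕ)}

theorem sum_dgS_symm (h : RG n d A) (S R : Finset ℕ) :
    ∑ v ∈ S, dgS A R v = ∑ y ∈ R, dgS A S y := by
  simp only [dgS_eq, card_filter]
  rw [sum_comm]
  refine sum_congr rfl fun y _ => sum_congr rfl fun v _ => ?_
  by_cases h1 : (v, y) ∈ A
  · rw [if_pos h1, if_pos (h.symm _ h1)]
  · rw [if_neg h1, if_neg fun h2 => h1 (h.symm _ h2)]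

theorem sum_out (h : RG n d A) {S : Finset ℕ} (hS : S ⊆ range n) :
    ∑ v ∈ S, (d - dgS A S v) = outer A S := by
  have h1 := h.inner_add_outer hS
  have h2 : ∑ v ∈ S, (d - dgS A S v) + ∑ v ∈ S, dgS A S v = d * S.card := by
    rw [← sum_add_distrib, mul_comm, ← smul_eq_mul, ← sum_const]
    exact sum_congr rfl fun v _ => Nat.sub_add_cancel (h.dgS_le S v)
  rw [RG.sum_dgS] at h2
  omega

/-- A good vertex for the next step. -/
theorem exists_next (h : RG n d A) {S : Finset ℕ} (hS : S ⊆ range n) {b : ℕ} (hb : 1 ≤ b)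
    (hout : outer A S * (4 * b ^ 2) ≤ d * S.card) {R : Finset ℕ} (hR : R ⊆ S)
    (hRk : S.card < b * R.card) :
    ∃ v ∈ S, 2 * b ^ 2 * (d - dgS A S v) + d ≤ 2 * b * dgS A R v := by
  by_contra hcon
  push Not at hcon
  have hne : S.Nonempty := by
    rcases R.eq_empty_or_nonempty with h0 | h0
    · rw [h0, card_empty] at hRk
      omega
    · exact h0.mono hR
  have h1 := sum_lt_sum_of_nonempty hne fun v hv => hcon v hv
  rw [sum_add_distrib, ← mul_sum, ← mul_sum, sum_out h hS, sum_const, smul_eq_mul,
    sum_dgS_symm h] at h1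
  have h2 : d * R.card ≤ ∑ y ∈ R, dgS A S y + outer A S := by
    have h3 : ∑ y ∈ R, (d - dgS A S y) ≤ outer A S := by
      rw [← sum_out h hS]
      exact sum_le_sum_of_subset hR
    have h4 : ∑ v ∈ R, (d - dgS A S v) + ∑ v ∈ R, dgS A S v = d * R.card := by
      rw [← sum_add_distrib, mul_comm, ← smul_eq_mul, ← sum_const]
      exact sum_congr rfl fun v _ => Nat.sub_add_cancel (h.dgS_le S v)
    omega
  have h3 : 2 * b * (d * R.card) ≤ 2 * b * (∑ y ∈ R, dgS A S y) + 2 * b * outer A S := by
    rw [← Nat.mul_add]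
    exact Nat.mul_le_mul_left _ h2
  have h4 : d * (S.card + 1) ≤ d * (b * R.card) := Nat.mul_le_mul_left _ hRk
  have h5 : 2 * b ≤ 2 * b ^ 2 := by
    have : b ≤ b ^ 2 := by
      rw [sq]
      exact Nat.le_mul_of_pos_left _ hb
    omega
  have h6 : 2 * b * outer A S ≤ 2 * b ^ 2 * outer A S := Nat.mul_le_mul_right _ h5
  have h7 : d * (S.card + 1) = d * S.card + d := by ring
  have h8 : 2 * b * (d * R.card) = 2 * (d * (b * R.card)) := by ring
  have h9 : outer A S * (4 * b ^ 2) = 2 * b ^ 2 * outer A S + 2 * b ^ 2 * outer A S := by ring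
  have h10 : S.card * d = d * S.card := mul_comm _ _
  omega

/-- The greedy choice. -/
theorem greedy (h : RG n d A) {S : Finset ℕ} (hS : S ⊆ range n) {b : ℕ} (hb : 1 ≤ b)
    (hout : outer A S * (4 * b ^ 2) ≤ d * S.card) : ∀ j : ℕ, ∃ t : List ℕ, t.length ≤ j ∧
      (∀ v ∈ t, v ∈ S) ∧ b * (nU n A t \ S).card ≤ (nU n A t ∩ S).card ∧
      (b * (S \ nU n A t).card ≤ S.card ∨
        2 * b * (S \ nU n A t).card + j * d ≤ 2 * b * S.card) := by
  intro j
  induction j with
  | zero =>
    refine ⟨[], le_rfl, by simp, ?_, Or.inr ?_⟩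
    · have : nU n A [] = ∅ := by
        unfold nU
        rw [filter_eq_empty_iff]
        rintro x _ ⟨v, hv, _⟩
        simp at hv
      rw [this]
      simp
    · rw [Nat.zero_mul, Nat.add_zero]
      exact Nat.mul_le_mul_left _ (card_le_card sdiff_subset)
  | succ j ih =>
    obtain ⟨t, ht1, ht2, ht3, ht4⟩ := ih
    set U := nU n A t with hU
    set R := S \ U with hR
    by_cases hbig : b * R.card ≤ S.card
    · exact ⟨t, by omega, ht2, ht3, Or.inl hbig⟩
    · push Not at hbig
      obtain ⟨v, hvS, hv⟩ := exists_next h hS hb hout (R := R) sdiff_subset hbig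
      have hvn := mem_range.1 (hS hvS)
      have hU' : nU n A (v :: t) = U ∪ nN n A v := by
        ext x
        rw [hU]
        unfold nU nN
        simp only [mem_filter, mem_union, List.mem_cons, exists_eq_or_imp, ← and_or_left]
        rw [or_comm]
      have hcN := card_nN h hvn
      have hdR : dgS A R v = (nN n A v ∩ R).card := by
        rw [dgS_eq]
        congr 1
        ext x
        simp only [mem_filter, mem_inter, mem_nN h]
        tauto
      have hdS : d - dgS A S v = (nN n A v \ S).card := by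
        have h1 : dgS A S v = (nN n A v ∩ S).card := by
          rw [dgS_eq]
          congr 1
          ext x
          simp only [mem_filter, mem_inter, mem_nN h]
          tauto
        rw [h1]
        have h2 := card_sdiff_add_card_inter (nN n A v) S
        omega
      have h1 : (nU n A (v :: t) \ S).card ≤ (U \ S).card + (nN n A v \ S).card := by
        rw [hU', union_sdiff_distrib]
        exact card_union_le _ _
      have h2 : (nU n A (v :: t) ∩ S).card = (U ∩ S).card + (nN n A v ∩ R).card := by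
        rw [hU', ← card_union_of_disjoint]
        · congr 1
          ext x
          simp only [mem_inter, mem_union, hR, mem_sdiff]
          tauto
        · rw [disjoint_left]
          intro x hx hx'
          exact (mem_sdiff.1 (mem_inter.1 hx').2).2 (mem_inter.1 hx).1
      have h3 : (S \ nU n A (v :: t)).card + (nN n A v ∩ R).card = R.card := by
        rw [hU', ← card_union_of_disjoint]
        · congr 1
          ext x
          simp only [mem_inter, mem_union, hR, mem_sdiff]
          tauto
        · rw [disjoint_left]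
          intro x hx hx'
          exact (mem_sdiff.1 hx).2 (mem_union_right _ (mem_inter.1 hx').1)
      rw [hdR, hdS] at hv
      refine ⟨v :: t, ?_, ?_, ?_, ?_⟩
      · rw [List.length_cons]
        omega
      · intro w hw
        rcases List.mem_cons.1 hw with rfl | hw
        · exact hvS
        · exact ht2 w hw
      · have h4 : b * (nN n A v \ S).card ≤ (nN n A v ∩ R).card := by
          have h5 : 2 * b * (b * (nN n A v \ S).card) ≤ 2 * b * (nN n A v ∩ R).card := by
            have h6 : 2 * b * (b * (nN n A v \ S).card) = 2 * b ^ 2 * (nN n A v \ S).card := by ring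
            omega
          exact Nat.le_of_mul_le_mul_left h5 (by omega)
        have h5 := Nat.mul_le_mul_left b h1
        rw [Nat.mul_add] at h5
        omega
      · right
        have h4 : 2 * b * (S \ nU n A (v :: t)).card + 2 * b * (nN n A v ∩ R).card =
            2 * b * R.card := by rw [← Nat.mul_add, h3]
        rcases ht4 with h5 | h5
        · omega
        · have h6 : (j + 1) * d = j * d + d := by ring
          omega

theorem goodT_of {I : Inst} (h : IsReg I) {b p q k : ℕ} (hq : 0 < q)
    (hkq : k * q = p * nV I) {t : List ℕ} : goodT b p q I t = true ↔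
      b * (nU (nV I) (darts I).toFinset t).card ≤ (b + 1) * k ∧
      b * (dg I * k) ≤ b * SSE.inner (darts I).toFinset (nU (nV I) (darts I).toFinset t) +
        3 * (dg I * k) := by
  unfold goodT
  rw [Bool.and_eq_true, decide_eq_true_eq, decide_eq_true_eq, cnt1_eq h, cnt2_eq h, ← hkq]
  have hd := h.1
  set U := nU (nV I) (darts I).toFinset t
  constructor
  · rintro ⟨h1, h2⟩
    constructor
    · apply Nat.le_of_mul_le_mul_left (c := q * dg I) _ (by positivity)
      calc q * dg I * (b * U.card) = b * (q * (dg I * U.card)) := by ring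
        _ ≤ (b + 1) * (dg I * (k * q)) := h1
        _ = _ := by ring
    · apply Nat.le_of_mul_le_mul_left (c := q) _ hq
      calc q * (b * (dg I * k)) = b * (dg I * (k * q)) := by ring
        _ ≤ _ := h2
        _ = _ := by ring
  · rintro ⟨h1, h2⟩
    constructor
    · calc b * (q * (dg I * U.card)) = q * dg I * (b * U.card) := by ring
        _ ≤ q * dg I * ((b + 1) * k) := Nat.mul_le_mul_left _ h1
        _ = _ := by ring
    · calc b * (dg I * (k * q)) = q * (b * (dg I * k)) := by ring
        _ ≤ q * _ := Nat.mul_le_mul_left _ h2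
        _ = _ := by ring

/-- Yes-instances are accepted. -/
theorem acceptT_of_yes {η δ : ℚ} {b c : ℕ} (hb : 1 ≤ b) (hη : η * (4 * b ^ 2) ≤ 1) (hδ : 0 < δ)
    {I : Inst} (hY : Yes η δ I) : acceptT b c δ.num.toNat δ.den (2 * b * c) I = true := by
  obtain ⟨h, k, hk0, hk, S, hS, hSk, hcut⟩ := hY
  have hkq : k * δ.den = δ.num.toNat * nV I := by
    rw [mul_comm]
    exact (num_den hδ hk).symm
  have hq : 0 < δ.den := δ.den_pos
  unfold acceptT
  rw [Bool.or_eq_true, decide_eq_true_eq]
  by_cases hsp : c * (δ.den * dg I) < δ.num.toNat * nV I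
  · exact Or.inl hsp
  right
  push Not at hsp
  have hkc : k ≤ c * dg I := by
    apply Nat.le_of_mul_le_mul_left (c := δ.den) _ hq
    calc δ.den * k = k * δ.den := mul_comm _ _
      _ = δ.num.toNat * nV I := hkq
      _ ≤ _ := hsp
      _ = _ := by ring
  have hrg := h.rg
  rw [h.cut_eq S] at hcut
  have hout : outer (darts I).toFinset S * (4 * b ^ 2) ≤ dg I * S.card := by
    rw [hSk]
    have h1 : (outer (darts I).toFinset S : ℚ) * (4 * b ^ 2) ≤ dg I * k := by
      calc (outer (darts I).toFinset S : ℚ) * (4 * b ^ 2) ≤ (η * (dg I * k)) * (4 * b ^ 2) :=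
            mul_le_mul_of_nonneg_right hcut (by positivity)
        _ = (η * (4 * b ^ 2)) * (dg I * k) := by ring
        _ ≤ 1 * (dg I * k) := mul_le_mul_of_nonneg_right hη (by positivity)
        _ = _ := one_mul _
    exact_mod_cast h1
  obtain ⟨t, ht1, ht2, ht3, ht4⟩ := greedy hrg hS hb hout (2 * b * c)
  rw [List.any_eq_true]
  refine ⟨t, mem_tup _ _ ht1 fun v hv => ?_, (goodT_of h hq hkq).2 ?_⟩
  · have hvn := mem_range.1 (hS (ht2 v hv))
    have h1 := h.2.2.2 v hvn
    have h2 : 0 < ((darts I).filter fun e => decide (e.1 = v)).length := by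
      rw [h1]
      exact h.1
    obtain ⟨e, he⟩ := List.exists_mem_of_length_pos h2
    obtain ⟨h3, h4⟩ := List.mem_filter.1 he
    exact List.mem_map.2 ⟨e, h3, of_decide_eq_true h4⟩
  · set A := (darts I).toFinset with hA
    set U := nU (nV I) A t with hU
    have hR : b * (S \ U).card ≤ k := by
      rcases ht4 with h1 | h1
      · rw [hSk] at h1
        exact h1
      · rw [hSk] at h1
        have h2 : 2 * b * c * dg I = 2 * b * (c * dg I) := by ring
        have h3 : 2 * b * k ≤ 2 * b * (c * dg I) := Nat.mul_le_mul_left _ hkc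
        have h4 : 2 * b * (S \ U).card = 0 := by omega
        have h5 : b * (S \ U).card = 0 := by
          have : 2 * b * (S \ U).card = 2 * (b * (S \ U).card) := by ring
          omega
        omega
    have h1 : (U ∩ S).card ≤ k := by
      rw [← hSk]
      exact card_le_card inter_subset_right
    have h2 := card_sdiff_add_card_inter U S
    constructor
    · have h3 : b * U.card = b * (U \ S).card + b * (U ∩ S).card := by
        rw [← Nat.mul_add, h2]
      have h4 : b * (U ∩ S).card ≤ b * k := Nat.mul_le_mul_left _ h1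
      have h5 : (b + 1) * k = b * k + k := by ring
      omega
    · have h3 := hrg.inner_le S U
      have h4 := hrg.inner_add_outer hS
      have h5 : SSE.inner A (S ∩ U) ≤ SSE.inner A U := RG.inner_mono inter_subset_right
      rw [hSk] at h4 hout
      have h6 : b * (dg I * k) ≤ b * SSE.inner A U + b * (2 * (dg I * (S \ U).card)) +
          b * outer A S := by
        rw [← h4, ← Nat.mul_add, ← Nat.mul_add]
        exact Nat.mul_le_mul_left _ (by omega)
      have h7 : b * (2 * (dg I * (S \ U).card)) ≤ 2 * (dg I * k) := by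
        calc b * (2 * (dg I * (S \ U).card)) = 2 * (dg I * (b * (S \ U).card)) := by ring
          _ ≤ _ := Nat.mul_le_mul_left _ (Nat.mul_le_mul_left _ hR)
      have h8 : b * outer A S ≤ dg I * k := by
        refine le_trans ?_ hout
        have : b ≤ 4 * b ^ 2 := by nlinarith
        calc b * outer A S ≤ 4 * b ^ 2 * outer A S := Nat.mul_le_mul_right _ this
          _ = _ := mul_comm _ _
      omega

/-- No-instances are rejected. -/
theorem not_acceptT_of_no {r b c : ℕ} {ε δ : ℚ} (hr : 1 ≤ r) (hε : 0 < ε) (hb : 5 < b * ε)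
    (hc : 1 < c * ε) (hδ : 0 < δ) (hδ1 : δ ≤ 1) {M : ℕ} {I : Inst}
    (hI : StarFree r I) (hN : No (1 / r - ε) δ I) :
    ¬ acceptT b c δ.num.toNat δ.den M I = true := by
  obtain ⟨h, k, hk0, hk, hno⟩ := id hN
  have hkq : k * δ.den = δ.num.toNat * nV I := by
    rw [mul_comm]
    exact (num_den hδ hk).symm
  have hq : 0 < δ.den := δ.den_pos
  have hrg := h.rg
  have hd0 : (0 : ℚ) < dg I := by exact_mod_cast h.1
  have hk0' : (0 : ℚ) < k := by exact_mod_cast hk0
  have hr1 : (1 : ℚ) / r ≤ 1 := by
    rw [div_le_one (by exact_mod_cast hr)]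
    exact_mod_cast hr
  have hkn : k ≤ nV I := by
    have h6 : (k : ℚ) ≤ nV I := by
      rw [hk]
      have : (0 : ℚ) ≤ nV I := by positivity
      nlinarith
    exact_mod_cast h6
  intro hacc
  unfold acceptT at hacc
  rw [Bool.or_eq_true, decide_eq_true_eq, List.any_eq_true] at hacc
  rcases hacc with hacc | ⟨t, _, hacc⟩
  · have h1 := no_degree hr hδ1 (fun v hv Y hY hYi => ind_of_starFree h hI hv hY hYi) hN hk
    rw [← hkq] at hacc
    have h2 : c * dg I < k := by
      apply Nat.lt_of_mul_lt_mul_left (a := δ.den)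
      calc δ.den * (c * dg I) = c * (δ.den * dg I) := by ring
        _ < k * δ.den := hacc
        _ = _ := mul_comm _ _
    have h3 : (c * dg I : ℚ) < k := by exact_mod_cast h2
    have h4 : ε * (c * dg I) < ε * k := mul_lt_mul_of_pos_left h3 hε
    have h5 : 1 * (dg I : ℚ) < (c * ε) * dg I := mul_lt_mul_of_pos_right hc hd0
    linarith
  · obtain ⟨h1, h2⟩ := (goodT_of h hq hkq).1 hacc
    set A := (darts I).toFinset with hA
    set U := nU (nV I) A t with hU
    have hUn : U ⊆ range (nV I) := filter_subset _ _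
    have hinner : ∀ T ⊆ range (nV I), T.card = k →
        (SSE.inner A T : ℚ) ≤ (1 - ε) * (dg I * k) := by
      intro T hT hTk
      have h3 := hno T hT hTk
      rw [h.cut_eq T] at h3
      have h4 := hrg.inner_add_outer hT
      rw [hTk] at h4
      have h5 : (SSE.inner A T : ℚ) + outer A T = dg I * k := by exact_mod_cast h4
      have h6 : (0 : ℚ) < dg I * k := by positivity
      have h7 : (1 / r - ε) * (dg I * k : ℚ) ≤ (1 - ε) * (dg I * k) :=
        mul_le_mul_of_nonneg_right (by linarith) h6.le
      linarith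
    have h2' : (b * (dg I * k) : ℚ) ≤ b * SSE.inner A U + 3 * (dg I * k) := by exact_mod_cast h2
    have hpos : (0 : ℚ) < dg I * k := by positivity
    have hb0 : (0 : ℚ) ≤ b := by positivity
    rcases Nat.lt_or_ge k U.card with h3 | h3
    · obtain ⟨T, hTU, hTk⟩ := exists_subset_card_eq h3.le
      have h4 := hinner T (hTU.trans hUn) hTk
      have h5 := hrg.inner_le U T
      rw [inter_eq_right.2 hTU] at h5
      have h6 : (U \ T).card + k = U.card := by
        have := card_sdiff_add_card_eq_card hTU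
        omega
      have h7 : b * (U \ T).card ≤ k := by
        have h8 : b * (U \ T).card + b * k = b * U.card := by rw [← Nat.mul_add, h6]
        have h9 : (b + 1) * k = b * k + k := by ring
        omega
      have h8 : (SSE.inner A U : ℚ) ≤ SSE.inner A T + 2 * (dg I * (U \ T).card) := by
        exact_mod_cast h5
      have h9 : (b * (U \ T).card : ℚ) ≤ k := by exact_mod_cast h7
      have h10 : (b * SSE.inner A U : ℚ) ≤ b * ((1 - ε) * (dg I * k)) + 2 * (dg I * k) := by
        calc (b * SSE.inner A U : ℚ) ≤ b * (SSE.inner A T + 2 * (dg I * (U \ T).card)) :=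
              mul_le_mul_of_nonneg_left h8 hb0
          _ = b * SSE.inner A T + 2 * (dg I * (b * (U \ T).card)) := by ring
          _ ≤ b * ((1 - ε) * (dg I * k)) + 2 * (dg I * k) := by
              refine add_le_add (mul_le_mul_of_nonneg_left h4 hb0) ?_
              exact mul_le_mul_of_nonneg_left (mul_le_mul_of_nonneg_left h9 hd0.le) (by norm_num)
      nlinarith
    · obtain ⟨T, hUT, hT, hTk⟩ := exists_subsuperset_card_eq hUn h3 (by rw [card_range]; exact hkn)
      have h4 := hinner T hT hTk
      have h5 : (SSE.inner A U : ℚ) ≤ SSE.inner A T := by exact_mod_cast RG.inner_mono hUT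
      have h10 : (b * SSE.inner A U : ℚ) ≤ b * ((1 - ε) * (dg I * k)) :=
        mul_le_mul_of_nonneg_left (h5.trans h4) hb0
      nlinarith

/-- **The easy side.** -/
theorem easy_starFree {r : ℕ} (hr : 1 ≤ r) {ε : ℚ} (hε : 0 < ε) :
    ∃ η₁ : ℚ, 0 < η₁ ∧ ∀ η δ : ℚ, η ≤ η₁ → 0 < δ → δ ≤ 1 →
      Easy (StarFree r) (Yes η δ) (No (1 / r - ε) δ) := by
  obtain ⟨b, hb⟩ := exists_nat_gt (5 / ε)
  obtain ⟨c, hc⟩ := exists_nat_gt (1 / ε)
  rw [div_lt_iff₀ hε] at hb hc
  have hb0 : 0 < b := by
    rcases Nat.eq_zero_or_pos b with h0 | h0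
    · rw [h0, Nat.cast_zero, zero_mul] at hb
      linarith
    · exact h0
  have hb1 : (0 : ℚ) < 4 * b ^ 2 := by positivity
  refine ⟨1 / (4 * b ^ 2), by positivity, fun η δ hη hδ hδ1 => ?_⟩
  exact ⟨fun I => acceptT b c δ.num.toNat δ.den (2 * b * c) I = true,
    inPP_of (poly_acceptT _ _ _ _ _) fun _ => Iff.rfl, fun I hI =>
      ⟨acceptT_of_yes hb0 (by rwa [le_div_iff₀ hb1] at hη) hδ,
        not_acceptT_of_no hr hε hb hc hδ hδ1 hI⟩⟩

end Pool.Agent.H697.SF
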