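import Pool.Agent.H697.SF.Main

/-!
# The threshold for small-set expansion in regular graphs without induced stars
-/

namespace Pool.Agent.H697.SF

open Finset Pool.Agent.NPC Pool.Agent.H697.Exp Pool.Agent.H697.SSE Pool.Agent.H697.SRed

theorem No.mono {η η' δ : ℚ} (h : η ≤ η') {I : Inst} (hI : No η δ I) : No η' δ I := by
  obtain ⟨h1, k, h2, h3, h4⟩ := hI
  refine ⟨h1, k, h2, h3, fun S hS hSk => le_trans ?_ (h4 S hS hSk)⟩
  exact mul_le_mul_of_nonneg_right (by linarith) (by positivity)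

/-- The reduction to graphs of large girth, with a large degree. -/
theorem exists_reduction_large (g Δ₀ : ℕ) {η₀ η δ : ℚ} (hδ : 0 < δ) (hδη : δ ≤ η₀)
    (h : 2 * η₀ < η) (hη : η ≤ 1) : ∃ (F : Inst → Inst) (Δ : ℕ), Δ₀ ≤ Δ ∧ Poly F ∧
      (∀ I, Yes η₀ δ I → Nice g Δ (F I) ∧ Yes η δ (F I) ∧ 2 ≤ δ * nV (F I)) ∧
      (∀ I, No η₀ δ I → Nice g Δ (F I) ∧ No η δ (F I) ∧ 2 ≤ δ * nV (F I)) ∧
      (∃ I, Yes η₀ δ I) ∧ ∃ I, No η₀ δ I := by
  classical
  have hη₀ : 0 < η₀ := lt_of_lt_of_le hδ hδη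
  set r : ℝ := ((η : ℝ) - 2 * η₀) * δ with hr
  have hr0 : 0 < r := by
    have h1 : (2 * η₀ : ℝ) < η := by exact_mod_cast h
    have h2 : (0 : ℝ) < δ := by exact_mod_cast hδ
    exact mul_pos (by linarith) h2
  obtain ⟨t₀, ht₀⟩ := exists_pow_lt_of_lt_one (show (0 : ℝ) < r / 16 by positivity)
    (show (73 / 80 : ℝ) < 1 by norm_num)
  set t := t₀ + Δ₀ with htdef
  have ht : (73 / 80 : ℝ) ^ t < r / 16 := lt_of_le_of_lt
    (pow_le_pow_of_le_one (by norm_num) (by norm_num) (Nat.le_add_right _ _)) ht₀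
  obtain ⟨D, N, B, hG⟩ := exists_rgadget (C := Red.Wd t × Red.Wd t) (max g 2) (le_max_right _ _)
    (show (0 : ℝ) < r / 4 by positivity)
  obtain ⟨n₀, hn₀⟩ := exists_nat_ge (8 / r)
  have hfin : ∀ I : Inst, n₀ ≤ nV I → ∀ k : ℕ, (k : ℚ) = δ * nV I →
      2 * (η₀ : ℝ) * k + 4 + (4 * (73 / 80) ^ t + r / 4) * nV I ≤ η * k := by
    intro I hI k hk
    have hk' : (k : ℝ) = δ * nV I := by exact_mod_cast hk
    have h1 : (n₀ : ℝ) ≤ nV I := by exact_mod_cast hI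
    have h2 : 8 / r ≤ nV I := hn₀.trans h1
    rw [div_le_iff₀ hr0] at h2
    have h3 : (4 * (73 / 80 : ℝ) ^ t + r / 4) ≤ r / 2 := by linarith
    have h4 := mul_le_mul_of_nonneg_right h3 (Nat.cast_nonneg (α := ℝ) (nV I))
    have h5 : (η : ℝ) * k - 2 * η₀ * k = r * nV I := by
      rw [hk', hr]
      ring
    linarith
  have hnice : ∀ I, IsReg I → Nice g (Fintype.card (Red.Wd t × Red.Wd t) * D) (Phi D N B I) := by
    intro I hI
    obtain ⟨h1, h2, h3⟩ := nice_Phi hG hI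
    exact ⟨h1, h2, fun a p hp => lt_of_le_of_lt (le_max_left _ _) (h3 a p hp)⟩
  have hlarge : ∀ I, IsReg I → (∃ k : ℕ, 0 < k ∧ (k : ℚ) = δ * nV I) →
      2 ≤ δ * nV (Phi D N B I) := by
    rintro I hI ⟨k, hk0, hk⟩
    have h1 : ((nV (Phi D N B I) : ℕ) : ℚ) = 2 * nV I * sd I * sd I * N := by
      have : nV (Phi D N B I) = 2 * nV I * sd I * sd I * N := rfl
      rw [this]
      push_cast
      ring
    have h2 : δ * (nV (Phi D N B I) : ℕ) = ((2 * k * sd I * sd I * N : ℕ) : ℚ) := by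
      rw [h1]
      push_cast
      rw [hk]
      ring
    rw [h2]
    have h3 : 2 ≤ 2 * k * sd I * sd I * N := by
      have h4 : 0 < sd I := Nat.succ_pos _
      have h5 := hG.posN
      have h6 : 0 < k * sd I * sd I * N := by positivity
      have h7 : 2 * k * sd I * sd I * N = 2 * (k * sd I * sd I * N) := by ring
      omega
    exact_mod_cast h3
  -- a fixed no-instance
  set m := δ.den * (n₀ + 2) with hm
  have hm2 : 2 ≤ m := by
    have : 1 ≤ δ.den := δ.den_pos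
    nlinarith
  have hmn : n₀ ≤ m := by
    have : 1 ≤ δ.den := δ.den_pos
    nlinarith
  have hmk : ((δ.num.toNat * (n₀ + 2) : ℕ) : ℚ) = δ * m := by
    have h1 : (δ.num : ℚ) = δ * δ.den := by rw [Rat.mul_den_eq_num]
    have h2 : ((δ.num.toNat : ℕ) : ℤ) = δ.num := Int.toNat_of_nonneg (Rat.num_nonneg.2 hδ.le)
    have h3 : ((δ.num.toNat : ℕ) : ℚ) = δ * δ.den := by
      rw [← h1, ← h2]
      rfl
    rw [hm]
    push_cast
    rw [h3]
    ring
  have hno : No η₀ δ (compl m) := by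
    refine no_compl hδη (by linarith) hm2 ?_ hmk
    have : 0 < δ.num := Rat.num_pos.2 hδ
    have h2 : 0 < δ.num.toNat := by omega
    positivity
  have hJ : No η δ (Phi D N B (compl m)) := no_Phi hG (hfin _ hmn) hno
  have hJn := hnice _ (isReg_compl hm2)
  have hJl := hlarge _ (isReg_compl hm2) (by
    obtain ⟨_, k, h1, h2, _⟩ := hno
    exact ⟨k, h1, h2⟩)
  have hΔ : Δ₀ ≤ Fintype.card (Red.Wd t × Red.Wd t) * D := by
    have h1 : 0 < Fintype.card (Red.Wd t × Red.Wd t) * D := hJ.1.1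
    have h2 : 0 < D := Nat.pos_of_mul_pos_left h1
    have h3 : Fintype.card (Red.Wd t × Red.Wd t) = 8 ^ t * 8 ^ t := by
      rw [Fintype.card_prod, Fintype.card_fun, Fintype.card_fin, Fintype.card_fin]
    have h4 : t < 8 ^ t := Nat.lt_pow_self (by norm_num)
    have h5 : Δ₀ ≤ t := Nat.le_add_left _ _
    rw [h3]
    calc Δ₀ ≤ 8 ^ t * 1 * 1 := by omega
      _ ≤ 8 ^ t * 8 ^ t * D := Nat.mul_le_mul (Nat.mul_le_mul_left _ (Nat.one_le_pow _ _ (by norm_num))) h2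
  -- the list of the small no-instances
  set L : List Inst := (finite_no η₀ δ n₀).toFinset.toList with hL
  have hmemL : ∀ I, I ∈ L ↔ No η₀ δ I ∧ nV I < n₀ := by
    intro I
    rw [hL, mem_toList, Set.Finite.mem_toFinset]
    rfl
  have hpoly : Poly (fun I : Inst => if I ∈ L then Phi D N B (compl m) else Phi D N B I) :=
    Poly.ite (p := fun I : Inst => I ∈ L)
      ((Poly.decide_mem Poly.id (NPC.Poly.const L)).congr fun _ => decide_eq_decide.2 Iff.rfl)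
      (NPC.Poly.const _) (poly_Phi D N B)
  refine ⟨_, Fintype.card (Red.Wd t × Red.Wd t) * D, hΔ, hpoly, ?_, ?_,
    ⟨_, yes_pmat hη₀.le hδ (by linarith)⟩, ⟨_, hno⟩⟩
  · intro I hI
    have h1 : I ∉ L := fun h2 => not_yes_of_no (by linarith) ((hmemL I).1 h2).1 hI
    simp only [if_neg h1]
    exact ⟨hnice I hI.1, Yes.mono (by linarith) (yes_Phi hG hI), hlarge I hI.1 (by
      obtain ⟨_, k, h1, h2, _⟩ := hI
      exact ⟨k, h1, h2⟩)⟩
  · intro I hI
    by_cases h1 : I ∈ L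
    · simp only [if_pos h1]
      exact ⟨hJn, hJ, hJl⟩
    · simp only [if_neg h1]
      refine ⟨hnice I hI.1, no_Phi hG (hfin I ?_) hI, hlarge I hI.1 (by
        obtain ⟨_, k, h1, h2, _⟩ := hI
        exact ⟨k, h1, h2⟩)⟩
      by_contra h2
      exact h1 ((hmemL I).2 ⟨hI, by omega⟩)

/-- The class: line graphs of simple `r`-uniform hypergraphs, regular of degree `D`. -/
def Line (r D : ℕ) (I : Inst) : Prop := IsLine r I ∧ dg I = D

theorem yes_Psi {η₀ η δ : ℚ} (hη₀ : 0 ≤ η₀) (hη : 4 * η₀ ≤ η) {I : Inst} (hu : Uniq I) {r : ℕ}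
    (hr : 2 ≤ r) (hrd : r ≤ dg I) (hY : Yes η₀ δ I) : Yes η δ (Psi (dg I) r I) := by
  obtain ⟨h, k, hk0, hk, S, hS, hSk, hcut⟩ := hY
  have hm := mod_Psi h hu hr hrd
  have hreg := isReg_Psi h hu hr hrd
  have hMp := hm.Mpos
  have hnV : nV (Psi (dg I) r I) = nV I * (Tl (dg I) r).length := rfl
  have hdg : dg (Psi (dg I) r I) = Mod.deg (dg I) r := rfl
  refine ⟨hreg, k * (Tl (dg I) r).length, by positivity, ?_, Mod.ovr (nV I) (Tl (dg I) r).length S,
    filter_subset _ _, ?_, ?_⟩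
  · rw [hnV]
    push_cast
    rw [hk]
    ring
  · rw [hm.card_over hS, hSk]
  · rw [hreg.cut_eq, darts_Psi h r, hdg]
    rw [h.cut_eq S, ← hSk] at hcut
    have h1 := hm.yes_final hS (η₀ := (η₀ : ℝ)) (by exact_mod_cast hη₀) (by exact_mod_cast hcut)
    rw [hSk] at h1
    have h2 : (outer (adjA (nV I * (Tl (dg I) r).length)
        fun v => (elt (Tl (dg I) r) I v).toFinset) (Mod.ovr (nV I) (Tl (dg I) r).length S) : ℝ) ≤
        η * (Mod.deg (dg I) r * (k * (Tl (dg I) r).length)) := by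
      refine h1.trans (mul_le_mul_of_nonneg_right ?_ (by positivity))
      exact_mod_cast hη
    push_cast
    exact_mod_cast h2

theorem no_Psi {η₀ ε δ : ℚ} (hη₀ : 0 ≤ η₀) (hε : 0 < ε) (hε1 : ε ≤ 1) (hδ1 : δ ≤ 1) {r M1 M2 : ℕ}
    (hM1 : 4 ≤ ε * M1) (hM2 : 16 * r * M1 ≤ ε * M2)
    (hη2 : 32 * r * η₀ * (((M2 + 1) * M1 : ℕ) : ℚ) ^ 2 ≤ ε) {I : Inst} (hu : Uniq I)
    (hd8 : 8 ≤ ε * dg I) (hr : 2 ≤ r) (hrd : r ≤ dg I) (h2 : 2 ≤ δ * nV I) (hN : No η₀ δ I) :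
    No (1 / r + ε) δ (Psi (dg I) r I) := by
  obtain ⟨h, k, hk0, hk, hno⟩ := hN
  have hm := mod_Psi h hu hr hrd
  have hreg := isReg_Psi h hu hr hrd
  have hMp := hm.Mpos
  have hnV : nV (Psi (dg I) r I) = nV I * (Tl (dg I) r).length := rfl
  have hdg : dg (Psi (dg I) r I) = Mod.deg (dg I) r := rfl
  have hk2 : 2 ≤ k := by
    rw [← hk] at h2
    exact_mod_cast h2
  have hkn : k ≤ nV I := by
    have h6 : (k : ℚ) ≤ nV I := by
      rw [hk]
      have : (0 : ℚ) ≤ nV I := by positivity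
      nlinarith
    exact_mod_cast h6
  refine ⟨hreg, k * (Tl (dg I) r).length, by positivity, ?_, ?_⟩
  · rw [hnV]
    push_cast
    rw [hk]
    ring
  · intro S' hS' hS'k
    have hinner : ∀ S ⊆ range (nV I), S.card = k →
        (SSE.inner (darts I).toFinset S : ℝ) ≤ (η₀ : ℝ) * (dg I * k) := by
      intro T hT hTk
      have h6 := hno T hT hTk
      rw [h.cut_eq T] at h6
      have h7 := h.rg.inner_add_outer hT
      rw [hTk] at h7
      have h8 : (SSE.inner (darts I).toFinset T : ℝ) + outer (darts I).toFinset T = dg I * k := by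
        exact_mod_cast h7
      have h9 : (1 - (η₀ : ℝ)) * (dg I * k) ≤ outer (darts I).toFinset T := by exact_mod_cast h6
      linarith
    have h3 := hm.no_final hk2 hkn (η₀ := (η₀ : ℝ)) (by exact_mod_cast hη₀) hinner
      (ε := (ε : ℝ)) (by exact_mod_cast hε) (by exact_mod_cast hε1) (M1 := M1) (M2 := M2)
      (by exact_mod_cast hd8) (by exact_mod_cast hM1) (by exact_mod_cast hM2)
      (by exact_mod_cast hη2) (hnV ▸ hS') hS'k
    have h4 := hreg.rg.inner_add_outer hS'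
    rw [hS'k, darts_Psi h r, hdg] at h4
    rw [hreg.cut_eq S', darts_Psi h r, hdg]
    have h5 : (SSE.inner (adjA (nV I * (Tl (dg I) r).length)
        fun v => (elt (Tl (dg I) r) I v).toFinset) S' : ℝ) +
        outer (adjA (nV I * (Tl (dg I) r).length)
        fun v => (elt (Tl (dg I) r) I v).toFinset) S' =
        Mod.deg (dg I) r * (k * (Tl (dg I) r).length) := by exact_mod_cast h4
    have h6 : (1 - (1 / r + (ε : ℝ))) * (Mod.deg (dg I) r * (k * (Tl (dg I) r).length)) ≤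
        outer (adjA (nV I * (Tl (dg I) r).length)
        fun v => (elt (Tl (dg I) r) I v).toFinset) S' := by linarith
    rw [← Rat.cast_le (K := ℝ)]
    push_cast
    exact h6

/-- **The hard side.** -/
theorem exists_reduction_line {r : ℕ} (hr : 2 ≤ r) {ε η : ℚ} (hε : 0 < ε) (hη : 0 < η) :
    ∃ η₀ : ℚ, 0 < η₀ ∧ η₀ ≤ 1 / 8 ∧ ∀ δ : ℚ, 0 < δ → δ ≤ η₀ → ∃ (F : Inst → Inst) (D : ℕ), Poly F ∧
      (∀ I, Yes η₀ δ I → Line r D (F I) ∧ Yes η δ (F I)) ∧
      (∀ I, No η₀ δ I → Line r D (F I) ∧ No (1 / r + ε) δ (F I)) ∧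
      (∃ I, Yes η₀ δ I) ∧ ∃ I, No η₀ δ I := by
  set ε' := min ε 1 with hε'
  have hε'0 : 0 < ε' := lt_min hε one_pos
  obtain ⟨M1, hM1⟩ := exists_nat_ge (4 / ε')
  obtain ⟨M2, hM2⟩ := exists_nat_ge (16 * r * M1 / ε')
  obtain ⟨Δ₀, hΔ₀⟩ := exists_nat_ge (8 / ε')
  rw [div_le_iff₀' hε'0] at hM1 hM2 hΔ₀
  set q : ℚ := 32 * r * (((M2 + 1) * M1 : ℕ) : ℚ) ^ 2 with hq
  have hM1p : 0 < M1 := by
    rcases Nat.eq_zero_or_pos M1 with h0 | h0
    · rw [h0, Nat.cast_zero, mul_zero] at hM1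
      linarith
    · exact h0
  have hqpos : 0 < q := by
    have : 0 < r := by omega
    positivity
  set η₁ := min (ε' / q) (min (η / 4) (1 / 2)) with hη₁
  have hη₁0 : 0 < η₁ := lt_min (by positivity) (lt_min (by positivity) (by norm_num))
  have hη₁h : η₁ ≤ 1 / 2 := (min_le_right _ _).trans (min_le_right _ _)
  refine ⟨η₁ / 4, by positivity, by linarith, fun δ hδ hδη => ?_⟩
  obtain ⟨F, Δ, hΔ, hF, hY, hN, hexY, hexN⟩ := exists_reduction_large 4 (Δ₀ + r) hδ hδη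
    (show 2 * (η₁ / 4) < η₁ by linarith) (by linarith)
  have hrΔ : r ≤ Δ := by omega
  have hdgΔ : (8 : ℚ) ≤ ε' * Δ := by
    have h1 : (Δ₀ : ℚ) ≤ Δ := by
      have : Δ₀ ≤ Δ := by omega
      exact_mod_cast this
    nlinarith
  refine ⟨fun I => Psi Δ r (F I), Mod.deg Δ r, (poly_Psi Δ r).comp hF, ?_, ?_, hexY, hexN⟩
  · intro I hI
    obtain ⟨h1, h2, h3⟩ := hY I hI
    have hu := uniq_of_nice le_rfl h2.1 h1
    have hdg : dg (F I) = Δ := h1.1
    have hr' : r ≤ dg (F I) := by rw [hdg]; exact hrΔ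
    have h4 := isLine_Psi h2.1 hu hr hr'
    have h5 := yes_Psi hη₁0.le (show 4 * η₁ ≤ η by
      have := (min_le_right (ε' / q) (min (η / 4) (1 / 2))).trans (min_le_left _ _)
      linarith) hu hr hr' h2
    rw [hdg] at h4 h5
    exact ⟨⟨h4, rfl⟩, h5⟩
  · intro I hI
    obtain ⟨h1, h2, h3⟩ := hN I hI
    have hu := uniq_of_nice le_rfl h2.1 h1
    have hdg : dg (F I) = Δ := h1.1
    have hr' : r ≤ dg (F I) := by rw [hdg]; exact hrΔ
    have h4 := isLine_Psi h2.1 hu hr hr'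
    have h5 := no_Psi (r := r) (M1 := M1) (M2 := M2) hη₁0.le hε'0 (min_le_right _ _)
      (by linarith) hM1 hM2 (by
        have h6 : η₁ ≤ ε' / q := min_le_left _ _
        rw [le_div_iff₀ hqpos] at h6
        calc 32 * (r : ℚ) * η₁ * (((M2 + 1) * M1 : ℕ) : ℚ) ^ 2 = η₁ * q := by
              rw [hq]
              ring
          _ ≤ ε' := h6) hu (by rw [hdg]; exact hdgΔ) hr hr' h3 h2
    rw [hdg] at h4 h5
    exact ⟨⟨h4, rfl⟩, No.mono (by
      have : ε' ≤ ε := min_le_left _ _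
      linarith) h5⟩

/-- The conjecture implies hardness above the threshold. -/
theorem line_of_sseh (h : SSEH fun _ => True) {r : ℕ} (hr : 2 ≤ r) {ε η : ℚ} (hε : 0 < ε)
    (hη : 0 < η) : ∃ δ : ℚ, 0 < δ ∧ δ ≤ 1 / 2 ∧ ∃ D : ℕ,
      Hard (Line r D) (Yes η δ) (No (1 / r + ε) δ) := by
  obtain ⟨η₀, hη₀, hη₀8, hred⟩ := exists_reduction_line hr hε hη
  obtain ⟨δ, hδ, hδ2, hhard⟩ := h η₀ hη₀ (by linarith)
  by_cases hδη : δ ≤ η₀
  · obtain ⟨F, D, hF, hY, hN, -, -⟩ := hred δ hδ hδη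
    exact ⟨δ, hδ, hδ2, D, hhard.of_reduction hF (fun I _ => hY I) (fun I _ => hN I)⟩
  · push Not at hδη
    have hcol : ∀ L : Set (List Bool), InNP L → InP L := by
      refine hhard.collapse ?_
      classical
      obtain ⟨n₀, hn₀⟩ := exists_nat_gt (1 / (δ - η₀))
      have hpos : 0 < δ - η₀ := by linarith
      rw [div_lt_iff₀ hpos] at hn₀
      set L : List Inst := (finite_no η₀ δ n₀).toFinset.toList with hL
      have hmemL : ∀ I, I ∈ L ↔ No η₀ δ I ∧ nV I < n₀ := by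
        intro I
        rw [hL, mem_toList, Set.Finite.mem_toFinset]
        rfl
      refine ⟨fun I => I ∉ L, inPP_of (d := fun I => !decide (I ∈ L)) (Poly.not
        ((Poly.decide_mem Poly.id (NPC.Poly.const L)).congr fun _ => decide_eq_decide.2 Iff.rfl))
        (fun I => by simp), fun I _ => ⟨fun hY hI => ?_, fun hN hI => ?_⟩⟩
      · exact not_yes_of_no (by linarith) ((hmemL I).1 hI).1 hY
      · apply hI
        rw [hmemL]
        refine ⟨hN, ?_⟩
        have h1 := no_small hη₀.le (by linarith) hN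
        have h2 : (δ - η₀) * nV I < (δ - η₀) * n₀ := by linarith
        have h3 := lt_of_mul_lt_mul_left h2 hpos.le
        exact_mod_cast h3
    obtain ⟨F, D, hF, hY, hN, ⟨IY, hIY⟩, ⟨IN, hIN⟩⟩ := hred η₀ hη₀ le_rfl
    exact ⟨η₀, hη₀, by linarith, D, hard_of_collapse hcol (hY IY hIY).1 (hY IY hIY).2
      (hN IN hIN).1 (hN IN hIN).2⟩

/-- Hardness above the threshold for all `r` implies the conjecture. -/
theorem sseh_of_star (h : ∀ r : ℕ, 2 ≤ r → ∀ η : ℚ, 0 < η → ∃ δ : ℚ, 0 < δ ∧ δ ≤ 1 / 2 ∧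
    Hard (StarFree r) (Yes η δ) (No (1 / r + η) δ)) : SSEH fun _ => True := by
  intro η hη _
  obtain ⟨r, hr⟩ := exists_nat_ge (2 / η)
  have hr' : (2 / η : ℚ) ≤ ((r + 2 : ℕ) : ℚ) := by
    push_cast
    linarith
  obtain ⟨δ, hδ, hδ2, hh⟩ := h (r + 2) (by omega) (η / 2) (by linarith)
  refine ⟨δ, hδ, hδ2, hh.mono (fun _ _ => trivial) (fun _ h => Yes.mono (by linarith) h)
    fun _ h => No.mono ?_ h⟩
  have h1 : (1 : ℚ) / ((r + 2 : ℕ) : ℚ) ≤ η / 2 := by
    rw [div_le_iff₀ (by positivity)]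
    rw [div_le_iff₀ hη] at hr'
    linarith
  linarith

end Pool.Agent.H697.SF
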