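import Pool.Agent.H697.SSE.Final

/-!
# Local density of regular graphs without induced stars
-/

namespace Pool.Agent.H697.SF

open Finset Pool.Agent.NPC Pool.Agent.H697.SSE

/-- No induced star with `r + 1` leaves. -/
def StarFree (r : ℕ) (I : Inst) : Prop :=
  IsEmpty (completeBipartiteGraph (Fin 1) (Fin (r + 1)) ↪g gr I)

/-- A set without adjacent elements. -/
def Ind (A : Finset (ℕ × ℕ)) (Y : Finset ℕ) : Prop := ∀ x ∈ Y, ∀ y ∈ Y, (x, y) ∉ A

variable {n d : ℕ} {A : Finset (ℕ × ℕ)}

theorem dgS_eq (S : Finset ℕ) (v : ℕ) : dgS A S v = (S.filter fun x => (v, x) ∈ A).card := by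
  unfold dgS
  refine card_bij (fun e _ => e.2) ?_ ?_ ?_
  · intro e he
    obtain ⟨h1, h2, h3⟩ := mem_filter.1 he
    exact mem_filter.2 ⟨h3, by rw [← h2]; exact h1⟩
  · intro e he e' he' heq
    obtain ⟨_, h2, _⟩ := mem_filter.1 he
    obtain ⟨_, h2', _⟩ := mem_filter.1 he'
    exact Prod.ext (h2.trans h2'.symm) heq
  · intro x hx
    obtain ⟨h1, h2⟩ := mem_filter.1 hx
    exact ⟨(v, x), mem_filter.2 ⟨h2, rfl, h1⟩, rfl⟩

/-- Turán's theorem for independent sets. -/
theorem turan (hs : ∀ e ∈ A, (e.2, e.1) ∈ A) (hi : ∀ e ∈ A, e.1 ≠ e.2) : ∀ (r : ℕ) (X : Finset ℕ),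
    (∀ Y ⊆ X, Ind A Y → Y.card ≤ r) → X.card ^ 2 ≤ r * (inner A X + X.card) := by
  intro r
  induction r with
  | zero =>
    intro X hX
    have h0 : X = ∅ := by
      by_contra hne
      obtain ⟨x, hx⟩ := nonempty_iff_ne_empty.2 hne
      have h1 := hX {x} (singleton_subset_iff.2 hx) (by
        intro a ha b hb hab
        rw [mem_singleton] at ha hb
        exact hi _ hab (ha.trans hb.symm))
      rw [card_singleton] at h1
      omega
    rw [h0]
    simp
  | succ r ih =>
    intro X hX
    rcases X.eq_empty_or_nonempty with h0 | hne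
    · rw [h0]
      simp
    obtain ⟨v, hv, hmin⟩ := exists_min_image X (fun x => dgS A X x) hne
    set N := X.filter fun x => (v, x) ∈ A with hN
    set X' := (X.erase v) \ N with hX'
    have hvN : v ∉ N := fun h => hi _ (mem_filter.1 h).2 rfl
    have hdN : dgS A X v = N.card := dgS_eq X v
    have hNX : N ⊆ X.erase v := fun x hx => mem_erase.2
      ⟨fun h => hvN (h ▸ hx), (mem_filter.1 hx).1⟩
    have hcard : X.card = (N.card + 1) + X'.card := by
      have h1 := card_sdiff_add_card_eq_card hNX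
      have h2 := card_erase_add_one hv
      rw [← hX'] at h1
      omega
    have hX'X : X' ⊆ X := sdiff_subset.trans (erase_subset _ _)
    have ih' := ih X' (by
      intro Y hY hYi
      have hvY : v ∉ Y := fun h => (mem_erase.1 (mem_sdiff.1 (hY h)).1).1 rfl
      have h1 := hX (insert v Y) (insert_subset hv (hY.trans hX'X)) (by
        have hno : ∀ y ∈ Y, (v, y) ∉ A := fun y hy h =>
          (mem_sdiff.1 (hY hy)).2 (mem_filter.2 ⟨hX'X (hY hy), h⟩)
        intro a ha b hb hab
        rcases mem_insert.1 ha with ha1 | ha1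
        · rcases mem_insert.1 hb with hb1 | hb1
          · exact hi _ hab (ha1.trans hb1.symm)
          · exact hno b hb1 (ha1 ▸ hab)
        · rcases mem_insert.1 hb with hb1 | hb1
          · exact hno a ha1 (hb1 ▸ hs _ hab)
          · exact hYi a ha1 b hb1 hab)
      rw [card_insert_of_notMem hvY] at h1
      omega)
    -- the number of edges
    have hin : (N.card + 1) * N.card + inner A X' ≤ inner A X := by
      rw [← RG.sum_dgS X, ← RG.sum_dgS X']
      have h1 : X = insert v N ∪ X' := by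
        ext x
        rw [mem_union, mem_insert, hX', mem_sdiff, mem_erase]
        constructor
        · intro hx
          by_cases h1 : x = v
          · exact Or.inl (Or.inl h1)
          · by_cases h2 : x ∈ N
            · exact Or.inl (Or.inr h2)
            · exact Or.inr ⟨⟨h1, hx⟩, h2⟩
        · rintro ((rfl | h) | h)
          · exact hv
          · exact (mem_filter.1 h).1
          · exact h.1.2
      have hdis : Disjoint (insert v N) X' := by
        rw [disjoint_left]
        intro x hx hx'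
        rw [hX', mem_sdiff, mem_erase] at hx'
        rcases mem_insert.1 hx with h | h
        · exact hx'.1.1 h
        · exact hx'.2 h
      have h2 : ∑ x ∈ X, dgS A X x = ∑ x ∈ insert v N, dgS A X x + ∑ x ∈ X', dgS A X x := by
        conv_lhs => rw [h1]
        rw [sum_union hdis]
        rw [← h1]
      rw [h2]
      refine Nat.add_le_add ?_ (sum_le_sum fun x _ => ?_)
      · calc (N.card + 1) * N.card = ∑ x ∈ insert v N, N.card := by
              rw [sum_const, smul_eq_mul, card_insert_of_notMem hvN]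
          _ ≤ _ := sum_le_sum fun x hx => by
              rw [← hdN]
              apply hmin
              rcases mem_insert.1 hx with rfl | h
              · exact hv
              · exact (mem_filter.1 h).1
      · rw [dgS_eq, dgS_eq]
        exact card_le_card (filter_subset_filter _ hX'X)
    rw [hcard]
    set a := N.card + 1 with ha
    set c := X'.card with hc
    set b := inner A X' + c with hb
    have h3 : a * a + b ≤ inner A X + (a + c) := by
      have : a * a = a * N.card + a := by
        conv_lhs => rw [ha]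
        rw [ha]
        ring
      omega
    refine le_trans ?_ (Nat.mul_le_mul_left _ h3)
    rcases Nat.eq_zero_or_pos r with h0 | hr
    · subst h0
      have hc0 : c = 0 := by
        have : c ^ 2 = 0 := by omega
        exact pow_eq_zero_iff (two_ne_zero) |>.1 this
      rw [hc0]
      nlinarith
    · have h4 : (r * (a + c) ^ 2 : ℤ) ≤ r * ((r + 1) * (a * a + b)) := by
        have h5 : (c ^ 2 : ℤ) ≤ r * b := by exact_mod_cast ih'
        nlinarith [sq_nonneg ((r : ℤ) * a - c)]
      have h6 : r * (a + c) ^ 2 ≤ r * ((r + 1) * (a * a + b)) := by exact_mod_cast h4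
      exact Nat.le_of_mul_le_mul_left h6 hr

/-- The closed neighbourhood. -/
def cN (n : ℕ) (A : Finset (ℕ × ℕ)) (v : ℕ) : Finset ℕ :=
  (range n).filter fun x => x = v ∨ (v, x) ∈ A

/-- The neighbourhood. -/
def nN (n : ℕ) (A : Finset (ℕ × ℕ)) (v : ℕ) : Finset ℕ := (range n).filter fun x => (v, x) ∈ A

theorem mem_nN (h : RG n d A) {v x : ℕ} : x ∈ nN n A v ↔ (v, x) ∈ A :=
  ⟨fun hx => (mem_filter.1 hx).2, fun hx => mem_filter.2 ⟨mem_range.2 (h.lt2 hx), hx⟩⟩

theorem card_nN (h : RG n d A) {v : ℕ} (hv : v < n) : (nN n A v).card = d := by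
  unfold nN
  rw [← dgS_eq, ← h.deg v hv]
  unfold dgS
  congr 1
  ext e
  simp only [mem_filter, mem_range]
  constructor
  · rintro ⟨h1, h2, _⟩
    exact ⟨h1, h2⟩
  · rintro ⟨h1, h2⟩
    exact ⟨h1, h2, h.lt2 h1⟩

theorem cN_eq (_h : RG n d A) {v : ℕ} (hv : v < n) : cN n A v = insert v (nN n A v) := by
  ext x
  unfold cN nN
  simp only [mem_filter, mem_insert, mem_range]
  constructor
  · rintro ⟨h1, h2 | h2⟩
    · exact Or.inl h2
    · exact Or.inr ⟨h1, h2⟩
  · rintro (rfl | h2)
    · exact ⟨hv, Or.inl rfl⟩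
    · exact ⟨h2.1, Or.inr h2.2⟩

theorem card_cN (h : RG n d A) {v : ℕ} (hv : v < n) : (cN n A v).card = d + 1 := by
  rw [cN_eq h hv, card_insert_of_notMem, card_nN h hv]
  intro h1
  exact h.irr _ ((mem_nN h).1 h1) rfl

/-- Closed neighbourhoods are dense. -/
theorem inner_cN (h : RG n d A) {r : ℕ} (hr : 1 ≤ r) {v : ℕ} (hv : v < n)
    (hind : ∀ Y ⊆ nN n A v, Ind A Y → Y.card ≤ r) : d * (d + 1) ≤ r * inner A (cN n A v) := by
  have h1 := turan h.symm h.irr r (nN n A v) hind
  rw [card_nN h hv] at h1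
  have hvn : v ∉ nN n A v := fun h1 => h.irr _ ((mem_nN h).1 h1) rfl
  have h2 := h.inner_erase (mem_insert_self v (nN n A v))
  rw [erase_insert hvn] at h2
  have h3 : dgS A (insert v (nN n A v)) v = d := by
    rw [dgS_eq, filter_insert, if_neg (fun h1 => h.irr _ h1 rfl)]
    rw [filter_true_of_mem fun x hx => (mem_nN h).1 hx, card_nN h hv]
  rw [h3] at h2
  rw [cN_eq h hv, ← h2]
  have h4 : r * (inner A (nN n A v) + 2 * d) = r * (inner A (nN n A v) + d) + r * d := by ring
  rw [h4]
  have h5 : d ≤ r * d := Nat.le_mul_of_pos_left d hr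
  calc d * (d + 1) = d ^ 2 + d := by ring
    _ ≤ _ := Nat.add_le_add h1 h5

theorem inner_inter_add (S T : Finset ℕ) :
    inner A S + inner A T ≤ inner A (S ∪ T) + inner A (S ∩ T) := by
  unfold SSE.inner
  rw [← card_union_add_card_inter]
  refine Nat.add_le_add (card_le_card ?_) (card_le_card ?_)
  · intro e he
    rcases mem_union.1 he with he | he
    · obtain ⟨h1, h2, h3⟩ := mem_filter.1 he
      exact mem_filter.2 ⟨h1, mem_union_left _ h2, mem_union_left _ h3⟩
    · obtain ⟨h1, h2, h3⟩ := mem_filter.1 he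
      exact mem_filter.2 ⟨h1, mem_union_right _ h2, mem_union_right _ h3⟩
  · intro e he
    obtain ⟨h1, h2⟩ := mem_inter.1 he
    obtain ⟨h3, h4, h5⟩ := mem_filter.1 h1
    obtain ⟨_, h6, h7⟩ := mem_filter.1 h2
    exact mem_filter.2 ⟨h3, mem_inter.2 ⟨h4, h6⟩, mem_inter.2 ⟨h5, h7⟩⟩

theorem sum_inner_inter (h : RG n d A) {S : Finset ℕ} (hS : S ⊆ range n) :
    ∑ v ∈ range n, inner A (S ∩ cN n A v) ≤ (d + 1) * inner A S := by
  have h1 : ∑ v ∈ range n, inner A (S ∩ cN n A v) =
      ∑ e ∈ A.filter fun e => e.1 ∈ S ∧ e.2 ∈ S,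
        ((range n).filter fun v => e.1 ∈ cN n A v ∧ e.2 ∈ cN n A v).card := by
    simp only [card_filter]
    rw [sum_comm]
    refine sum_congr rfl fun v _ => ?_
    unfold SSE.inner
    rw [card_filter, sum_filter]
    refine sum_congr rfl fun e _ => ?_
    by_cases a1 : e.1 ∈ S <;> by_cases a2 : e.2 ∈ S <;> by_cases a3 : e.1 ∈ cN n A v <;>
      by_cases a4 : e.2 ∈ cN n A v <;> simp [a1, a2, a3, a4]
  rw [h1]
  unfold SSE.inner
  rw [mul_comm, ← smul_eq_mul, ← sum_const]
  refine sum_le_sum fun e he => ?_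
  have he1 := mem_range.1 (hS (mem_filter.1 he).2.1)
  rw [← card_cN h he1]
  apply card_le_card
  intro v hv
  obtain ⟨h2, h3, _⟩ := mem_filter.1 hv
  refine mem_filter.2 ⟨h2, ?_⟩
  rcases (mem_filter.1 h3).2 with h4 | h4
  · exact Or.inl h4.symm
  · exact Or.inr (h.symm _ h4)

theorem sum_card_inter (h : RG n d A) {S : Finset ℕ} (hS : S ⊆ range n) :
    ∑ v ∈ range n, (S ∩ cN n A v).card = (d + 1) * S.card := by
  have h1 : ∑ v ∈ range n, (S ∩ cN n A v).card =
      ∑ x ∈ S, ((range n).filter fun v => x ∈ cN n A v).card := by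
    simp only [card_filter]
    rw [sum_comm]
    refine sum_congr rfl fun v _ => ?_
    rw [← card_filter]
    congr 1
  rw [h1, mul_comm, ← smul_eq_mul, ← sum_const]
  refine sum_congr rfl fun x hx => ?_
  have hx' := mem_range.1 (hS hx)
  rw [← card_cN h hx']
  congr 1
  ext v
  unfold cN
  simp only [mem_filter, mem_range]
  constructor
  · rintro ⟨h2, _, h3 | h3⟩
    · exact ⟨h2, Or.inl h3.symm⟩
    · exact ⟨h2, Or.inr (h.symm _ h3)⟩
  · rintro ⟨h2, h3 | h3⟩
    · exact ⟨h2, hx', Or.inl h3.symm⟩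
    · exact ⟨h2, hx', Or.inr (h.symm _ h3)⟩

/-- Adding a closed neighbourhood to a dense set. -/
theorem step (h : RG n d A) {r : ℕ} (hdense : ∀ v < n, d * (d + 1) ≤ r * SSE.inner A (cN n A v))
    {S : Finset ℕ} (hS : S ⊆ range n) (hSn : S.card + (d + 1) ≤ n)
    (hSi : d * S.card ≤ r * SSE.inner A S) :
    ∃ v < n, ¬ cN n A v ⊆ S ∧ d * (S ∪ cN n A v).card ≤ r * SSE.inner A (S ∪ cN n A v) := by
  by_contra hcon
  push Not at hcon
  set V0 := (range n).filter fun v => cN n A v ⊆ S with hV0
  have hV0S : V0 ⊆ S := by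
    intro v hv
    obtain ⟨h1, h2⟩ := mem_filter.1 hv
    exact h2 (mem_filter.2 ⟨h1, Or.inl rfl⟩)
  have hV0c := card_le_card hV0S
  set a : ℤ := r * SSE.inner A S with ha
  set b : ℤ := d * S.card with hb
  have hab : b ≤ a := by
    rw [ha, hb]
    exact_mod_cast hSi
  -- lower bound
  have h1 : ((n : ℤ) - (d + 1)) * (a - b) ≤
      ∑ v ∈ range n, ((r : ℤ) * SSE.inner A (S ∪ cN n A v) - d * (S ∪ cN n A v).card) := by
    have h2 : ∀ v ∈ range n, a + (d * (d + 1) : ℤ) - r * SSE.inner A (S ∩ cN n A v) - (b +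
        d * (d + 1) - d * (S ∩ cN n A v).card) ≤
        (r : ℤ) * SSE.inner A (S ∪ cN n A v) - d * (S ∪ cN n A v).card := by
      intro v hv
      have hv' := mem_range.1 hv
      have h3 := inner_inter_add (A := A) S (cN n A v)
      have h4 := hdense v hv'
      have h5 := card_union_add_card_inter S (cN n A v)
      rw [card_cN h hv'] at h5
      have h6 : r * SSE.inner A S + d * (d + 1) ≤ r * SSE.inner A (S ∪ cN n A v) +
          r * SSE.inner A (S ∩ cN n A v) := by
        have h7 := Nat.mul_le_mul_left r h3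
        rw [Nat.mul_add, Nat.mul_add] at h7
        omega
      have h7 : d * (S ∪ cN n A v).card + d * (S ∩ cN n A v).card =
          d * S.card + d * (d + 1) := by
        rw [← Nat.mul_add, h5, Nat.mul_add]
      have h6' : (r * SSE.inner A S + d * (d + 1) : ℤ) ≤ r * SSE.inner A (S ∪ cN n A v) +
          r * SSE.inner A (S ∩ cN n A v) := by exact_mod_cast h6
      have h7' : (d * (S ∪ cN n A v).card + d * (S ∩ cN n A v).card : ℤ) =
          d * S.card + d * (d + 1) := by exact_mod_cast h7
      linarith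
    refine le_trans ?_ (sum_le_sum h2)
    have h3 := sum_inner_inter h hS
    have h4 := sum_card_inter h hS
    have h3' : (r : ℤ) * ∑ v ∈ range n, (SSE.inner A (S ∩ cN n A v) : ℤ) ≤ (d + 1) * a := by
      have h5 := Nat.mul_le_mul_left r h3
      have h6 : r * ((d + 1) * SSE.inner A S) = (d + 1) * (r * SSE.inner A S) := by ring
      rw [h6] at h5
      rw [ha]
      exact_mod_cast h5
    have h4' : (d : ℤ) * ∑ v ∈ range n, ((S ∩ cN n A v).card : ℤ) = (d + 1) * b := by
      have h5 := congrArg (fun x => d * x) h4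
      have h6 : d * ((d + 1) * S.card) = (d + 1) * (d * S.card) := by ring
      beta_reduce at h5
      rw [h6] at h5
      rw [hb]
      exact_mod_cast h5
    have h5 : ∑ v ∈ range n, (a + (d * (d + 1) : ℤ) - r * SSE.inner A (S ∩ cN n A v) - (b +
        d * (d + 1) - d * (S ∩ cN n A v).card)) = n * (a - b) -
        r * ∑ v ∈ range n, (SSE.inner A (S ∩ cN n A v) : ℤ) +
        d * ∑ v ∈ range n, ((S ∩ cN n A v).card : ℤ) := by
      rw [mul_sum, mul_sum]
      have h6 : (n : ℤ) * (a - b) = ∑ v ∈ range n, (a - b) := by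
        rw [sum_const, card_range, nsmul_eq_mul]
      rw [h6, ← sum_sub_distrib, ← sum_add_distrib]
      exact sum_congr rfl fun v _ => by ring
    rw [h5, h4']
    linarith
  -- upper bound
  have h2 : ∑ v ∈ range n, ((r : ℤ) * SSE.inner A (S ∪ cN n A v) - d * (S ∪ cN n A v).card) ≤
      V0.card * (a - b) - (n - V0.card) := by
    have hsub : V0 ⊆ range n := filter_subset _ _
    rw [← sum_sdiff hsub]
    have h3 : ∑ v ∈ V0, ((r : ℤ) * SSE.inner A (S ∪ cN n A v) - d * (S ∪ cN n A v).card) =
        V0.card * (a - b) := by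
      rw [← nsmul_eq_mul, ← sum_const]
      refine sum_congr rfl fun v hv => ?_
      rw [union_eq_left.2 (mem_filter.1 hv).2]
    have h4 : ∑ v ∈ range n \ V0, ((r : ℤ) * SSE.inner A (S ∪ cN n A v) -
        d * (S ∪ cN n A v).card) ≤ ∑ v ∈ range n \ V0, (-1 : ℤ) := by
      refine sum_le_sum fun v hv => ?_
      obtain ⟨h5, h6⟩ := mem_sdiff.1 hv
      have h7 := hcon v (mem_range.1 h5) fun h8 => h6 (mem_filter.2 ⟨h5, h8⟩)
      have h8 : (r * SSE.inner A (S ∪ cN n A v) : ℤ) < d * (S ∪ cN n A v).card := by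
        exact_mod_cast h7
      linarith
    rw [sum_const, card_sdiff_of_subset hsub, card_range, nsmul_eq_mul] at h4
    have h5 : V0.card ≤ n := by
      have := card_le_card hsub
      rwa [card_range] at this
    rw [Nat.cast_sub h5] at h4
    rw [h3]
    linarith
  have h3 := h1.trans h2
  have h4 : (V0.card : ℤ) + (d + 1) ≤ n := by
    have : V0.card + (d + 1) ≤ n := by omega
    exact_mod_cast this
  have h5 : (0 : ℤ) ≤ d := by positivity
  nlinarith

/-- Dense sets of any size. -/
theorem exists_dense (h : RG n d A) {r : ℕ}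
    (hdense : ∀ v < n, d * (d + 1) ≤ r * SSE.inner A (cN n A v)) {k : ℕ} (hk : k ≤ n) :
    ∃ S ⊆ range n, S.card ≤ k ∧ k ≤ S.card + d ∧ d * S.card ≤ r * SSE.inner A S := by
  have key : ∀ (m : ℕ) (S : Finset ℕ), S ⊆ range n → S.card ≤ k → k ≤ S.card + m →
      d * S.card ≤ r * SSE.inner A S →
      ∃ S ⊆ range n, S.card ≤ k ∧ k ≤ S.card + d ∧ d * S.card ≤ r * SSE.inner A S := by
    intro m
    induction m with
    | zero =>
      intro S h1 h2 h3 h4
      exact ⟨S, h1, h2, by omega, h4⟩
    | succ m ih =>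
      intro S h1 h2 h3 h4
      by_cases h5 : k ≤ S.card + d
      · exact ⟨S, h1, h2, h5, h4⟩
      · obtain ⟨v, hv, h6, h7⟩ := step h hdense h1 (by omega) h4
        have h8 : (S ∪ cN n A v).card ≤ S.card + (d + 1) := by
          rw [← card_cN h hv]
          exact card_union_le _ _
        have h9 : S.card < (S ∪ cN n A v).card := card_lt_card
          ⟨subset_union_left, fun h10 => h6 (subset_union_right.trans h10)⟩
        exact ih (S ∪ cN n A v) (union_subset h1 (filter_subset _ _)) (by omega) (by omega) h7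
  exact key k ∅ (empty_subset _) (by simp) (by simp) (by simp)

/-- In a regular graph without an induced star, small degree excludes no-instances. -/
theorem no_degree {r : ℕ} (hr : 1 ≤ r) {ε δ : ℚ} (hδ1 : δ ≤ 1)
    {I : Inst} (hind : ∀ v < nV I, ∀ Y ⊆ nN (nV I) (darts I).toFinset v,
      Ind (darts I).toFinset Y → Y.card ≤ r)
    (hN : No (1 / r - ε) δ I) {k : ℕ} (hk : (k : ℚ) = δ * nV I) : ε * k ≤ dg I := by
  obtain ⟨h, k', hk0, hk', hno⟩ := hN
  obtain rfl : k = k' := by exact_mod_cast hk.trans hk'.symm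
  have hrg := h.rg
  set A := (darts I).toFinset with hA
  set d := dg I with hd
  set n := nV I with hn'
  have hd0 : (0 : ℚ) < d := by exact_mod_cast h.1
  have hk0' : (0 : ℚ) < k := by exact_mod_cast hk0
  have hr0 : (0 : ℚ) < r := by exact_mod_cast hr
  have hkn : k ≤ n := by
    have h6 : (k : ℚ) ≤ n := by
      rw [hk]
      have : (0 : ℚ) ≤ n := by positivity
      nlinarith
    exact_mod_cast h6
  obtain ⟨S, hS, hSc, hSk, hSi⟩ := exists_dense hrg
    (fun v hv => inner_cN hrg hr hv (hind v hv)) hkn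
  obtain ⟨T, hST, hT, hTc⟩ := exists_subsuperset_card_eq hS hSc (by rw [card_range]; exact hkn)
  have h1 := hno T hT hTc
  rw [h.cut_eq T] at h1
  have h2 := hrg.inner_add_outer hT
  rw [hTc] at h2
  have h3 : (SSE.inner A T : ℚ) + outer A T = d * k := by exact_mod_cast h2
  have h4 : (SSE.inner A S : ℚ) ≤ SSE.inner A T := by exact_mod_cast RG.inner_mono hST
  have h5 : (SSE.inner A S : ℚ) ≤ (1 / r - ε) * (d * k) := by linarith
  have h6 : (d * S.card : ℚ) ≤ r * SSE.inner A S := by exact_mod_cast hSi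
  have h7 : (k : ℚ) ≤ S.card + d := by exact_mod_cast hSk
  have h8 : (d * S.card : ℚ) ≤ d * ((1 - r * ε) * k) := by
    calc (d * S.card : ℚ) ≤ r * SSE.inner A S := h6
      _ ≤ r * ((1 / r - ε) * (d * k)) := mul_le_mul_of_nonneg_left h5 hr0.le
      _ = _ := by
        field_simp
  have h9 := le_of_mul_le_mul_left h8 hd0
  have h10 : r * (ε * k) ≤ d := by linarith
  rcases le_or_gt (ε * k) 0 with h11 | h11
  · linarith
  · have h12 : (1 : ℚ) ≤ r := by exact_mod_cast hr
    nlinarith

theorem ind_of_starFree {r : ℕ} {I : Inst} (h : IsReg I) (hI : StarFree r I) {v : ℕ}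
    (hv : v < nV I) {Y : Finset ℕ} (hY : Y ⊆ nN (nV I) (darts I).toFinset v)
    (hYi : Ind (darts I).toFinset Y) : Y.card ≤ r := by
  by_contra hcon
  push Not at hcon
  have hrg := h.rg
  obtain ⟨Z, hZY, hZc⟩ := exists_subset_card_eq (show r + 1 ≤ Y.card by omega)
  apply hI.false
  set f := Z.orderEmbOfFin hZc with hf
  have hfZ : ∀ i, f i ∈ Z := fun i => Z.orderEmbOfFin_mem hZc i
  have hfA : ∀ i, (v, f i) ∈ (darts I).toFinset := fun i => (mem_nN hrg).1 (hY (hZY (hfZ i)))
  have hflt : ∀ i, f i < nV I := fun i => hrg.lt2 (hfA i)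
  have hmem : ∀ a b : ℕ, (a, b) ∈ darts I ↔ (a, b) ∈ (darts I).toFinset := fun a b =>
    List.mem_toFinset.symm
  refine ⟨⟨fun x => Sum.elim (fun _ => (⟨v, hv⟩ : Fin (nV I))) (fun i => ⟨f i, hflt i⟩) x, ?_⟩, ?_⟩
  · rintro (a | a) (b | b) hab
    · rw [Subsingleton.elim a b]
    · exfalso
      have h1 := congrArg Fin.val hab
      simp only [Sum.elim_inl, Sum.elim_inr] at h1
      have h2 := hfA b
      rw [← h1] at h2
      exact hrg.irr _ h2 rfl
    · exfalso
      have h1 := congrArg Fin.val hab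
      simp only [Sum.elim_inl, Sum.elim_inr] at h1
      have h2 := hfA a
      rw [h1] at h2
      exact hrg.irr _ h2 rfl
    · have h1 := congrArg Fin.val hab
      simp only [Sum.elim_inr] at h1
      rw [f.injective h1]
  · rintro (a | a) (b | b)
    · constructor
      · intro hadj
        exact absurd (congrArg (fun x : Fin 1 => (⟨v, hv⟩ : Fin (nV I))) (Subsingleton.elim a b))
          hadj.ne
      · intro hadj
        simp at hadj
    · have h2 := hfA b
      have h3 := hrg.symm _ h2
      have h4 := hrg.irr _ h2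
      simp only [Function.Embedding.coeFn_mk, Sum.elim_inl, Sum.elim_inr, gr,
        completeBipartiteGraph, hmem]
      simp only [Sum.isLeft_inl, Sum.isRight_inr, and_self, true_or, iff_true]
      exact ⟨fun h5 => h4 (congrArg Fin.val h5), h2, h3⟩
    · have h2 := hfA a
      have h3 := hrg.symm _ h2
      have h4 := hrg.irr _ h2
      simp only [Function.Embedding.coeFn_mk, Sum.elim_inl, Sum.elim_inr, gr,
        completeBipartiteGraph, hmem]
      simp only [Sum.isLeft_inl, Sum.isRight_inr, and_self, or_true, iff_true]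
      exact ⟨fun h5 => h4 (congrArg Fin.val h5).symm, h3, h2⟩
    · have h2 := hYi _ (hZY (hfZ a)) _ (hZY (hfZ b))
      simp only [Function.Embedding.coeFn_mk, Sum.elim_inr, gr, completeBipartiteGraph, hmem]
      constructor
      · rintro ⟨_, h3, _⟩
        exact absurd h3 h2
      · intro h3
        simp at h3

end Pool.Agent.H697.SF
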