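import Pool.Agent.H697.SF.Red

/-!
# Small-set expansion in line graphs of `r`-uniform hypergraphs
-/

namespace Pool.Agent.H697.SF

open Finset Pool.Agent.NPC Pool.Agent.H697.Exp Pool.Agent.H697.SSE Pool.Agent.H697.SRed

/-- The number of inner pairs of small sets. -/
theorem small_sets {n d : ℕ} {A : Finset (ℕ × ℕ)} (h : RG n d A) {k : ℕ} (hk2 : 2 ≤ k)
    (hkn : k ≤ n) {η₀ : ℝ} (hη : 0 ≤ η₀)
    (hno : ∀ S ⊆ range n, S.card = k → (SSE.inner A S : ℝ) ≤ η₀ * (d * k)) {L : ℕ} (hL : 1 ≤ L)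
    {Z : Finset ℕ} (hZ : Z ⊆ range n) (hZc : Z.card ≤ L * k) :
    (SSE.inner A Z : ℝ) ≤ 2 * η₀ * (d * k) * L ^ 2 := by
  have hL1 : (1 : ℝ) ≤ L := by exact_mod_cast hL
  have hL2 : (1 : ℝ) ≤ (L : ℝ) ^ 2 := one_le_pow₀ hL1
  have hpos : 0 ≤ η₀ * (d * k) := by positivity
  rcases Nat.lt_or_ge k Z.card with h1 | h1
  · obtain ⟨m, hm⟩ : ∃ m, Z.card = k + m := ⟨Z.card - k, by omega⟩
    obtain ⟨B, hBZ, hBk, hB⟩ := h.shrink hk2 m hm
    have h2 := hno B (hBZ.trans hZ) hBk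
    have h3 : SSE.inner A Z * (k * (k - 1)) ≤ SSE.inner A B * ((L * k) * (L * k)) :=
      hB.trans (Nat.mul_le_mul_left _ (Nat.mul_le_mul hZc ((Nat.sub_le _ _).trans hZc)))
    obtain ⟨j, rfl⟩ : ∃ j, k = j + 1 := ⟨k - 1, by omega⟩
    rw [Nat.add_sub_cancel] at h3
    have h4 : (SSE.inner A Z : ℝ) * ((j + 1) * j) ≤
        SSE.inner A B * ((L * (j + 1)) * (L * (j + 1))) := by exact_mod_cast h3
    push_cast at h2 hpos ⊢
    have hj : (1 : ℝ) ≤ j := by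
      have : 1 ≤ j := by omega
      exact_mod_cast this
    have h5 : (SSE.inner A Z : ℝ) * ((j + 1) * j) ≤
        (2 * η₀ * (d * (j + 1)) * L ^ 2) * ((j + 1) * j) := by
      calc (SSE.inner A Z : ℝ) * ((j + 1) * j) ≤
            SSE.inner A B * ((L * (j + 1)) * (L * (j + 1))) := h4
        _ ≤ (η₀ * (d * (j + 1))) * ((L * (j + 1)) * (L * (j + 1))) :=
            mul_le_mul_of_nonneg_right h2 (by positivity)
        _ = ((η₀ * (d * (j + 1))) * L ^ 2 * (j + 1)) * (j + 1) := by ring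
        _ ≤ ((η₀ * (d * (j + 1))) * L ^ 2 * (j + 1)) * (2 * j) :=
            mul_le_mul_of_nonneg_left (by linarith) (by positivity)
        _ = _ := by ring
    exact le_of_mul_le_mul_right h5 (by positivity)
  · obtain ⟨T, hZT, hT, hTk⟩ := exists_subsuperset_card_eq hZ h1 (by rw [card_range]; exact hkn)
    have h2 := hno T hT hTk
    have h3 : (SSE.inner A Z : ℝ) ≤ SSE.inner A T := by exact_mod_cast RG.inner_mono hZT
    nlinarith

namespace Mod

variable {n d r M : ℕ} {A : Finset (ℕ × ℕ)} {E : ℕ → Finset ℕ}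

theorem K_eq' (h : Mod n d r M A E) :
    (d : ℝ) * ((d - 1).choose (r - 1) : ℕ) = r * M := by exact_mod_cast h.K_eq

/-- Non-expanding sets. -/
theorem yes_final (h : Mod n d r M A E) {S : Finset ℕ} (hS : S ⊆ range n) {η₀ : ℝ}
    (hη : 0 ≤ η₀) (hout : (outer A S : ℝ) ≤ η₀ * (d * S.card)) :
    (outer (adjA (n * M) E) (ovr n M S) : ℝ) ≤ 4 * η₀ * (deg d r * (S.card * M)) := by
  have h1 := h.outer_over hS
  set C := (d - 1).choose (r - 1) with hC
  have h2 : (outer (adjA (n * M) E) (ovr n M S) : ℝ) ≤ C ^ 2 * (2 * (d * outer A S)) := by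
    exact_mod_cast h1
  have hd2 : 2 ≤ d := h.hr.trans h.hrd
  obtain ⟨d', rfl⟩ : ∃ d', d = d' + 1 := ⟨d - 1, by omega⟩
  have hd' : (1 : ℝ) ≤ d' := by
    have : 1 ≤ d' := by omega
    exact_mod_cast this
  have hdeg : (r * (d' * C) : ℝ) ≤ deg (d' + 1) r := by
    have := deg_ge (d := d' + 1) (r := r)
    rw [Nat.add_sub_cancel] at this hC
    rw [← hC] at this
    exact_mod_cast this
  have hK := h.K_eq'
  rw [← hC] at hK
  push_cast at hK hout h2
  have h3 : (C : ℝ) ^ 2 * (2 * ((d' + 1) * outer A S)) ≤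
      C ^ 2 * (2 * ((d' + 1) * (η₀ * ((d' + 1) * S.card)))) := by gcongr
  have h4 : (4 * η₀ * ((r * (d' * C)) * (S.card * M)) : ℝ) ≤
      4 * η₀ * (deg (d' + 1) r * (S.card * M)) := by gcongr
  have h5 : (4 * η₀ * ((r * (d' * C)) * (S.card * M)) : ℝ) =
      4 * η₀ * (d' * C * S.card * ((d' + 1) * C)) := by
    rw [hK]
    ring
  have h6 : (C : ℝ) ^ 2 * (2 * ((d' + 1) * (η₀ * ((d' + 1) * S.card)))) ≤
      4 * η₀ * (d' * C * S.card * ((d' + 1) * C)) := by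
    have h7 : (0 : ℝ) ≤ 2 * η₀ * C ^ 2 * S.card * (d' + 1) := by positivity
    have h8 := mul_le_mul_of_nonneg_left (show (d' + 1 : ℝ) ≤ 2 * d' by linarith) h7
    linarith
  linarith

theorem C2_le (h : Mod n d r M A E) :
    ((d - 2).choose (r - 2) : ℕ) * (d : ℝ) ^ 2 ≤ 2 * r ^ 2 * M := by
  have hr := h.hr
  have hrd := h.hrd
  have h1 := h.K_eq
  obtain ⟨d', rfl⟩ : ∃ d', d = d' + 2 := ⟨d - 2, by omega⟩
  obtain ⟨r', rfl⟩ : ∃ r', r = r' + 2 := ⟨r - 2, by omega⟩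
  have e1 : d' + 2 - 2 = d' := rfl
  have e2 : r' + 2 - 2 = r' := rfl
  have e3 : d' + 2 - 1 = d' + 1 := rfl
  have e4 : r' + 2 - 1 = r' + 1 := rfl
  rw [e3, e4] at h1
  rw [e1, e2]
  have h2 : (d' + 1) * d'.choose r' = (d' + 1).choose (r' + 1) * (r' + 1) :=
    Nat.add_one_mul_choose_eq d' r'
  have h1' : ((d' : ℝ) + 2) * ((d' + 1).choose (r' + 1) : ℕ) = (r' + 2) * M := by
    exact_mod_cast h1
  have h2' : ((d' : ℝ) + 1) * (d'.choose r' : ℕ) = ((d' + 1).choose (r' + 1) : ℕ) * (r' + 1) := by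
    exact_mod_cast h2
  push_cast
  have h3 : (0 : ℝ) ≤ (d'.choose r' : ℕ) := by positivity
  have h4 : (0 : ℝ) ≤ d' := by positivity
  have h5 : ((d'.choose r' : ℕ) : ℝ) * (d' + 2) ^ 2 ≤
      2 * ((d' + 2) * (((d' : ℝ) + 1) * (d'.choose r' : ℕ))) := by
    have h6 := mul_nonneg (mul_nonneg h3 h4) (show (0 : ℝ) ≤ d' + 2 by linarith)
    linarith
  rw [h2'] at h5
  have h6 : 2 * (((d' : ℝ) + 2) * (((d' + 1).choose (r' + 1) : ℕ) * (r' + 1))) =
      2 * ((r' + 2) * (r' + 1)) * M := by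
    have : 2 * (((d' : ℝ) + 2) * (((d' + 1).choose (r' + 1) : ℕ) * (r' + 1))) =
        2 * ((((d' : ℝ) + 2) * ((d' + 1).choose (r' + 1) : ℕ)) * (r' + 1)) := by ring
    rw [this, h1']
    ring
  have h7 : (0 : ℝ) ≤ M := by positivity
  have h8 : (0 : ℝ) ≤ r' := by positivity
  nlinarith

/-- All sets of a given size expand. -/
theorem no_final (h : Mod n d r M A E) {k : ℕ} (hk2 : 2 ≤ k) (hkn : k ≤ n) {η₀ : ℝ}
    (hη : 0 ≤ η₀) (hno : ∀ S ⊆ range n, S.card = k → (SSE.inner A S : ℝ) ≤ η₀ * (d * k))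
    {ε : ℝ} (hε : 0 < ε) (hε1 : ε ≤ 1) {M1 M2 : ℕ} (hd8 : 8 ≤ ε * d) (hM1 : 4 ≤ ε * M1)
    (hM2 : 16 * r * M1 ≤ ε * M2) (hη2 : 32 * r * η₀ * (((M2 + 1) * M1 : ℕ) : ℝ) ^ 2 ≤ ε)
    {S' : Finset ℕ} (hS : S' ⊆ range (n * M)) (hc : S'.card = k * M) :
    (SSE.inner (adjA (n * M) E) S' : ℝ) ≤ (1 / r + ε) * (deg d r * (k * M)) := by
  have hr2 : (2 : ℝ) ≤ r := by exact_mod_cast h.hr
  have hM1p : 0 < M1 := by
    rcases Nat.eq_zero_or_pos M1 with h0 | h0
    · rw [h0, Nat.cast_zero, mul_zero] at hM1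
      linarith
    · exact h0
  have hM1p' : (0 : ℝ) < M1 := by exact_mod_cast hM1p
  have hM2p : 0 < M2 := by
    rcases Nat.eq_zero_or_pos M2 with h0 | h0
    · rw [h0, Nat.cast_zero, mul_zero] at hM2
      have : 0 < 16 * (r : ℝ) * M1 := by positivity
      linarith
    · exact h0
  have hM2p' : (0 : ℝ) < M2 := by exact_mod_cast hM2p
  set L := (M2 + 1) * M1 with hL
  have hLp : 1 ≤ L := Nat.one_le_iff_ne_zero.2 (by positivity)
  have hB : ∀ Z ⊆ range n, Z.card ≤ (M2 + 1) * (M1 * k) →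
      (SSE.inner A Z : ℝ) ≤ 2 * η₀ * (d * k) * L ^ 2 := fun Z hZ hZc =>
    small_sets h.rg hk2 hkn hη hno hLp hZ (by rw [hL, mul_assoc]; exact hZc)
  have h1 := h.no_bound hM1p hM2p hB hS hc
  refine h1.trans ?_
  have hC2 := h.C2_le
  set C2 := (d - 2).choose (r - 2) with hC2'
  have hMp : (0 : ℝ) < M := by exact_mod_cast h.Mpos
  have hkp : (0 : ℝ) < k := by
    have : 0 < k := by omega
    exact_mod_cast this
  have hdp : (0 : ℝ) < d := by
    by_contra h0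
    push Not at h0
    nlinarith
  -- the error terms
  have h2 : (C2 : ℝ) * (d * (d * (M1 * k)) / M2 + d * (2 * η₀ * (d * k) * L ^ 2)) ≤
      (r * ε / 4) * (k * M) := by
    have e1 : (C2 : ℝ) * (d * (d * (M1 * k)) / M2 + d * (2 * η₀ * (d * k) * L ^ 2)) =
        (C2 * d ^ 2) * (k * (M1 / M2 + 2 * η₀ * L ^ 2)) := by
      field_simp
    rw [e1]
    have e2 : (C2 * (d : ℝ) ^ 2) * (k * (M1 / M2 + 2 * η₀ * L ^ 2)) ≤
        (2 * r ^ 2 * M) * (k * (M1 / M2 + 2 * η₀ * L ^ 2)) :=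
      mul_le_mul_of_nonneg_right hC2 (by positivity)
    refine e2.trans ?_
    have e3 : 16 * (r : ℝ) * (M1 / M2) ≤ ε := by
      rw [← mul_div_assoc, div_le_iff₀ hM2p']
      exact hM2
    have e4 : (r : ℝ) * (r * (M1 / M2 + 2 * η₀ * L ^ 2) * 2) ≤ r * (ε / 4) := by
      refine mul_le_mul_of_nonneg_left ?_ (by positivity)
      linarith
    calc (2 * r ^ 2 * M) * (k * (M1 / M2 + 2 * η₀ * L ^ 2)) =
          (r * (r * (M1 / M2 + 2 * η₀ * L ^ 2) * 2)) * (k * M) := by ring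
      _ ≤ (r * (ε / 4)) * (k * M) := mul_le_mul_of_nonneg_right e4 (by positivity)
      _ = _ := by ring
  have h3 : (r : ℝ) / M1 ≤ r * ε / 4 := by
    rw [div_le_div_iff₀ hM1p' (by norm_num)]
    nlinarith
  have h4 : (r * M : ℝ) * ((1 + r / M1) * (k * M) +
      C2 * (d * (d * (M1 * k)) / M2 + d * (2 * η₀ * (d * k) * L ^ 2))) ≤
      (r * M) * ((1 + r * ε / 2) * (k * M)) := by
    refine mul_le_mul_of_nonneg_left ?_ (by positivity)
    have h5 : (1 + r / M1) * (k * M : ℝ) ≤ (1 + r * ε / 4) * (k * M) :=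
      mul_le_mul_of_nonneg_right (by linarith) (by positivity)
    linarith
  refine h4.trans ?_
  -- the degree
  have hd1 : 1 ≤ d := by
    have := h.hr.trans h.hrd
    omega
  have hdeg : ((d : ℝ) - 1) * (r * (r * M)) ≤ d * deg d r := by
    have h5 := deg_ge (d := d) (r := r)
    have h6 : (r * ((d - 1) * ((d - 1).choose (r - 1) : ℕ)) : ℝ) ≤ deg d r := by
      have h7 : ((r * ((d - 1) * (d - 1).choose (r - 1)) : ℕ) : ℝ) ≤ deg d r := by
        exact_mod_cast h5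
      rw [Nat.cast_mul, Nat.cast_mul, Nat.cast_sub hd1, Nat.cast_one] at h7
      exact h7
    have h7 := mul_le_mul_of_nonneg_left h6 hdp.le
    have h8 := h.K_eq'
    calc ((d : ℝ) - 1) * (r * (r * M)) =
        d * (r * ((d - 1) * ((d - 1).choose (r - 1) : ℕ))) := by
          rw [← h8]
          ring
      _ ≤ _ := h7
  have h5 : (d : ℝ) * ((r * M) * ((1 + r * ε / 2) * (k * M))) ≤
      d * ((1 / r + ε) * (deg d r * (k * M))) := by
    have h6 : (1 / r + ε) * (((d : ℝ) - 1) * (r * (r * M))) * (k * M) ≤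
        (1 / r + ε) * (d * deg d r) * (k * M) :=
      mul_le_mul_of_nonneg_right (mul_le_mul_of_nonneg_left hdeg (by positivity)) (by positivity)
    have h7 : (1 / r + ε) * (((d : ℝ) - 1) * (r * (r * M))) * (k * M) =
        ((1 + r * ε) * (d - 1)) * ((r * M) * (k * M)) := by
      field_simp
    have h8 : d * (1 + r * ε / 2) ≤ (1 + r * ε) * (d - 1) := by
      have h9 : 8 * (r : ℝ) ≤ r * (ε * d) := by nlinarith
      nlinarith
    have h9 : (d * (1 + r * ε / 2)) * ((r * M) * (k * M)) ≤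
        ((1 + r * ε) * (d - 1)) * ((r * M) * (k * M)) :=
      mul_le_mul_of_nonneg_right h8 (by positivity)
    calc (d : ℝ) * ((r * M) * ((1 + r * ε / 2) * (k * M))) =
          (d * (1 + r * ε / 2)) * ((r * M) * (k * M)) := by ring
      _ ≤ _ := h9
      _ = _ := h7.symm
      _ ≤ _ := h6
      _ = _ := by ring
  exact le_of_mul_le_mul_left h5 hdp

end Mod

/-- Graphs of large girth have no 4-cycles. -/
theorem uniq_of_nice {g Δ : ℕ} (hg : 4 ≤ g) {I : Inst} (h : IsReg I) (hI : Nice g Δ I) :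
    Uniq I := by
  intro c c' x y hcc h1 h2 h3 h4
  by_contra hxy
  have e1 := h.2.2.1 _ h1
  have e2 := h.2.2.1 _ h2
  have e3 := h.2.2.1 _ h3
  have e4 := h.2.2.1 _ h4
  set a : Fin (nV I) := ⟨c, e1.1⟩ with ha
  set a' : Fin (nV I) := ⟨c', e3.1⟩ with ha'
  set b : Fin (nV I) := ⟨x, e1.2.1⟩ with hb
  set b' : Fin (nV I) := ⟨y, e2.2.1⟩ with hb'
  have haa : a ≠ a' := fun h5 => hcc (congrArg Fin.val h5)
  have hbb : b ≠ b' := fun h5 => hxy (congrArg Fin.val h5)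
  have hab : a ≠ b := fun h5 => e1.2.2.1 (congrArg Fin.val h5)
  have hab' : a ≠ b' := fun h5 => e2.2.2.1 (congrArg Fin.val h5)
  have ha'b : a' ≠ b := fun h5 => e3.2.2.1 (congrArg Fin.val h5)
  have ha'b' : a' ≠ b' := fun h5 => e4.2.2.1 (congrArg Fin.val h5)
  have w1 : (gr I).Adj a b := ⟨hab, h1, e1.2.2.2⟩
  have w2 : (gr I).Adj b a' := ⟨ha'b.symm, e3.2.2.2, h3⟩
  have w3 : (gr I).Adj a' b' := ⟨ha'b', h4, e4.2.2.2⟩
  have w4 : (gr I).Adj b' a := ⟨hab'.symm, e2.2.2.2, h2⟩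
  have h5 := hI.2.2 a (SimpleGraph.Walk.cons w1 (SimpleGraph.Walk.cons w2
    (SimpleGraph.Walk.cons w3 (SimpleGraph.Walk.cons w4 SimpleGraph.Walk.nil)))) (by
      rw [SimpleGraph.Walk.cons_isCycle_iff]
      simp [SimpleGraph.Walk.cons_isPath_iff, haa, haa.symm, hbb, hab, hab.symm, hab', hab'.symm,
        ha'b, ha'b.symm, ha'b', ha'b'.symm])
  simp at h5
  omega

end Pool.Agent.H697.SF
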