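import Pool.Agent.H697.SF.Dense

/-!
# Graphs of `r`-subsets of neighbourhoods
-/

namespace Pool.Agent.H697.SF

open Finset Pool.Agent.NPC Pool.Agent.H697.SSE

/-! ### Counting subsets -/

theorem card_mem_powersetCard {X : Finset ℕ} {x : ℕ} (hx : x ∈ X) {r : ℕ} (hr : 1 ≤ r) :
    ((powersetCard r X).filter fun U => x ∈ U).card = (X.card - 1).choose (r - 1) := by
  rw [← card_erase_of_mem hx, ← card_powersetCard]
  refine card_bij (fun U _ => U.erase x) ?_ ?_ ?_
  · intro U hU
    obtain ⟨h1, h2⟩ := mem_filter.1 hU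
    obtain ⟨h3, h4⟩ := mem_powersetCard.1 h1
    exact mem_powersetCard.2 ⟨erase_subset_erase _ h3, by rw [card_erase_of_mem h2, h4]⟩
  · intro U hU U' hU' heq
    rw [← insert_erase (mem_filter.1 hU).2, ← insert_erase (mem_filter.1 hU').2, heq]
  · intro W hW
    obtain ⟨h3, h4⟩ := mem_powersetCard.1 hW
    have h5 : x ∉ W := fun h => (mem_erase.1 (h3 h)).1 rfl
    refine ⟨insert x W, mem_filter.2 ⟨mem_powersetCard.2 ⟨insert_subset hx
      (h3.trans (erase_subset _ _)), ?_⟩, mem_insert_self _ _⟩, erase_insert h5⟩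
    rw [card_insert_of_notMem h5, h4]
    omega

theorem card_mem_mem_powersetCard {X : Finset ℕ} {x y : ℕ} (hx : x ∈ X) (hy : y ∈ X)
    (hxy : x ≠ y) {r : ℕ} (hr : 2 ≤ r) :
    ((powersetCard r X).filter fun U => x ∈ U ∧ y ∈ U).card = (X.card - 2).choose (r - 2) := by
  have hy' : y ∈ X.erase x := mem_erase.2 ⟨hxy.symm, hy⟩
  have h0 := card_mem_powersetCard hy' (r := r - 1) (by omega)
  rw [card_erase_of_mem hx] at h0
  rw [show X.card - 2 = X.card - 1 - 1 by omega, show r - 2 = r - 1 - 1 by omega, ← h0]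
  refine card_bij (fun U _ => U.erase x) ?_ ?_ ?_
  · intro U hU
    obtain ⟨h1, h2, h5⟩ := mem_filter.1 hU
    obtain ⟨h3, h4⟩ := mem_powersetCard.1 h1
    exact mem_filter.2 ⟨mem_powersetCard.2 ⟨erase_subset_erase _ h3,
      by rw [card_erase_of_mem h2, h4]⟩, mem_erase.2 ⟨hxy.symm, h5⟩⟩
  · intro U hU U' hU' heq
    rw [← insert_erase (mem_filter.1 hU).2.1, ← insert_erase (mem_filter.1 hU').2.1, heq]
  · intro W hW
    obtain ⟨h6, h7⟩ := mem_filter.1 hW
    obtain ⟨h3, h4⟩ := mem_powersetCard.1 h6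
    have h5 : x ∉ W := fun h => (mem_erase.1 (h3 h)).1 rfl
    refine ⟨insert x W, mem_filter.2 ⟨mem_powersetCard.2 ⟨insert_subset hx
      (h3.trans (erase_subset _ _)), ?_⟩, mem_insert_self _ _, mem_insert_of_mem h7⟩,
      erase_insert h5⟩
    rw [card_insert_of_notMem h5, h4]
    omega

theorem card_disj_powersetCard {X V : Finset ℕ} (hV : V ⊆ X) (r : ℕ) :
    ((powersetCard r X).filter fun U => Disjoint U V).card = (X.card - V.card).choose r := by
  rw [← card_sdiff_of_subset hV, ← card_powersetCard]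
  congr 1
  ext U
  rw [mem_filter, mem_powersetCard, mem_powersetCard, subset_sdiff]
  tauto

/-! ### The model -/

/-- The vertex `v < n M` stands for an `r`-subset `E v` of the neighbourhood of `v / M`. -/
structure Mod (n d r M : ℕ) (A : Finset (ℕ × ℕ)) (E : ℕ → Finset ℕ) : Prop where
  rg : RG n d A
  uniq : ∀ c c' x y, c ≠ c' → (c, x) ∈ A → (c, y) ∈ A → (c', x) ∈ A → (c', y) ∈ A → x = y
  hM : M = d.choose r
  hr : 2 ≤ r
  hrd : r ≤ d
  mem : ∀ c < n, ∀ t < M, E (c * M + t) ∈ powersetCard r (nN n A c)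
  inj : ∀ c < n, ∀ t < M, ∀ t' < M, E (c * M + t) = E (c * M + t') → t = t'

namespace Mod

variable {n d r M : ℕ} {A : Finset (ℕ × ℕ)} {E : ℕ → Finset ℕ}

theorem Mpos (h : Mod n d r M A E) : 0 < M := by
  rw [h.hM]
  exact Nat.choose_pos h.hrd

theorem div_lt (_h : Mod n d r M A E) {v : ℕ} (hv : v < n * M) : v / M < n :=
  Nat.div_lt_of_lt_mul (by rwa [mul_comm])

theorem sum_range (h : Mod n d r M A E) {β : Type} [AddCommMonoid β] (f : ℕ → Finset ℕ → β) :
    ∑ v ∈ range (n * M), f (v / M) (E v) =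
      ∑ c ∈ range n, ∑ U ∈ powersetCard r (nN n A c), f c U := by
  have h1 : ∑ v ∈ range (n * M), f (v / M) (E v) =
      ∑ ct ∈ range n ×ˢ range M, f ct.1 (E (ct.1 * M + ct.2)) := by
    symm
    refine sum_nbij' (fun ct => ct.1 * M + ct.2) (fun v => (v / M, v % M)) ?_ ?_ ?_ ?_ ?_
    · intro ct hct
      obtain ⟨h1, h2⟩ := mem_product.1 hct
      rw [mem_range] at h1 h2 ⊢
      exact Pool.Agent.H697.SRed.radix_lt h1 h2
    · intro v hv
      rw [mem_range] at hv
      exact mem_product.2 ⟨mem_range.2 (h.div_lt hv), mem_range.2 (Nat.mod_lt _ h.Mpos)⟩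
    · intro ct hct
      have h2 := mem_range.1 (mem_product.1 hct).2
      refine Prod.ext ?_ ?_
      · change (ct.1 * M + ct.2) / M = ct.1
        rw [mul_comm, Nat.mul_add_div h.Mpos, Nat.div_eq_of_lt h2, Nat.add_zero]
      · change (ct.1 * M + ct.2) % M = ct.2
        rw [mul_comm, Nat.mul_add_mod, Nat.mod_eq_of_lt h2]
    · intro v _
      exact Nat.div_add_mod' v M
    · intro ct hct
      have h2 := mem_range.1 (mem_product.1 hct).2
      have h3 : (ct.1 * M + ct.2) / M = ct.1 := by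
        rw [mul_comm, Nat.mul_add_div h.Mpos, Nat.div_eq_of_lt h2, Nat.add_zero]
      rw [h3]
  rw [h1, sum_product]
  refine sum_congr rfl fun c hc => ?_
  have hc' := mem_range.1 hc
  have himg : (range M).image (fun t => E (c * M + t)) = powersetCard r (nN n A c) := by
    apply eq_of_subset_of_card_le
    · intro U hU
      obtain ⟨t, ht, rfl⟩ := mem_image.1 hU
      exact h.mem c hc' t (mem_range.1 ht)
    · rw [card_image_of_injOn, card_range, card_powersetCard, card_nN h.rg hc', h.hM]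
      intro t ht t' ht' heq
      exact h.inj c hc' t (mem_range.1 ht) t' (mem_range.1 ht') heq
  rw [← himg, sum_image]
  intro t ht t' ht' heq
  exact h.inj c hc' t (mem_range.1 ht) t' (mem_range.1 ht') heq

theorem E_mem (h : Mod n d r M A E) {v : ℕ} (hv : v < n * M) :
    E v ∈ powersetCard r (nN n A (v / M)) := by
  have h1 := h.mem (v / M) (h.div_lt hv) (v % M) (Nat.mod_lt _ h.Mpos)
  rwa [Nat.div_add_mod'] at h1

theorem card_E (h : Mod n d r M A E) {v : ℕ} (hv : v < n * M) : (E v).card = r :=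
  (mem_powersetCard.1 (h.E_mem hv)).2

theorem E_adj (h : Mod n d r M A E) {v x : ℕ} (hv : v < n * M) (hx : x ∈ E v) :
    (v / M, x) ∈ A := (mem_nN h.rg).1 ((mem_powersetCard.1 (h.E_mem hv)).1 hx)

theorem E_lt (h : Mod n d r M A E) {v x : ℕ} (hv : v < n * M) (hx : x ∈ E v) : x < n :=
  h.rg.lt2 (h.E_adj hv hx)

theorem E_inj_div (h : Mod n d r M A E) {u v : ℕ} (hu : u < n * M) (_hv : v < n * M)
    (huv : u / M = v / M) (hE : E u = E v) : u = v := by
  have h1 : E (u / M * M + u % M) = E (u / M * M + v % M) := by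
    rw [Nat.div_add_mod', huv, Nat.div_add_mod', hE]
  have h2 := h.inj (u / M) (h.div_lt hu) (u % M) (Nat.mod_lt _ h.Mpos) (v % M)
    (Nat.mod_lt _ h.Mpos) h1
  rw [← Nat.div_add_mod' u M, ← Nat.div_add_mod' v M, huv, h2]

/-- The hypergraph is simple. -/
theorem E_inj (h : Mod n d r M A E) {u v : ℕ} (hu : u < n * M) (hv : v < n * M)
    (hE : E u = E v) : u = v := by
  by_cases huv : u / M = v / M
  · exact h.E_inj_div hu hv huv hE
  · exfalso
    have h1 : 1 < (E u).card := by
      rw [h.card_E hu]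
      exact h.hr
    obtain ⟨x, hx, y, hy, hxy⟩ := one_lt_card.1 h1
    exact hxy (h.uniq _ _ x y huv (h.E_adj hu hx) (h.E_adj hu hy) (h.E_adj hv (hE ▸ hx))
      (h.E_adj hv (hE ▸ hy)))

/-- The new degree. -/
def deg (d r : ℕ) : ℕ :=
  r * ((d - 1) * (d - 1).choose (r - 1)) + (d.choose r - (d - r).choose r - 1)

theorem deg_ge : r * ((d - 1) * (d - 1).choose (r - 1)) ≤ deg d r := Nat.le_add_right _ _

/-- The number of sets that contain a given vertex. -/
theorem card_star (h : Mod n d r M A E) {x : ℕ} (hx : x < n) :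
    ((range (n * M)).filter fun v => x ∈ E v).card = d * (d - 1).choose (r - 1) := by
  rw [card_filter, h.sum_range fun _ U => if x ∈ U then 1 else 0]
  have h1 : ∀ c ∈ range n, (∑ U ∈ powersetCard r (nN n A c), if x ∈ U then 1 else 0) =
      if (x, c) ∈ A then (d - 1).choose (r - 1) else 0 := by
    intro c hc
    rw [← card_filter]
    by_cases hxc : (x, c) ∈ A
    · rw [if_pos hxc, card_mem_powersetCard ((mem_nN h.rg).2 (h.rg.symm _ hxc))
        (by have := h.hr; omega), card_nN h.rg (mem_range.1 hc)]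
    · rw [if_neg hxc, card_eq_zero, filter_eq_empty_iff]
      intro U hU hxU
      exact hxc (h.rg.symm _ ((mem_nN h.rg).1 ((mem_powersetCard.1 hU).1 hxU)))
  rw [sum_congr rfl h1, ← sum_filter, sum_const, smul_eq_mul]
  congr 1
  exact card_nN h.rg hx

/-- Regularity. -/
theorem card_adj (h : Mod n d r M A E) {v : ℕ} (hv : v < n * M) :
    ((range (n * M)).filter fun u => v ≠ u ∧ ¬ Disjoint (E v) (E u)).card = deg d r := by
  have hr1 : 1 ≤ r := by have := h.hr; omega
  have hne : ∀ u, u < n * M → ((v ≠ u ∧ ¬ Disjoint (E v) (E u)) ↔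
      ¬ (v / M = u / M ∧ E v = E u) ∧ ¬ Disjoint (E v) (E u)) := by
    intro u hu
    refine and_congr_left fun _ => not_congr ⟨?_, fun h1 => h.E_inj_div hv hu h1.1 h1.2⟩
    rintro rfl
    exact ⟨rfl, rfl⟩
  rw [card_filter, sum_congr rfl fun u hu => if_congr (hne u (mem_range.1 hu)) rfl rfl]
  rw [h.sum_range fun c U => if ¬ (v / M = c ∧ E v = U) ∧ ¬ Disjoint (E v) U then 1 else 0]
  have hc0 : v / M ∈ range n := mem_range.2 (h.div_lt hv)
  rw [← add_sum_erase _ _ hc0, add_comm]
  unfold deg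
  congr 1
  · have h1 : ∀ c ∈ (range n).erase (v / M), (∑ U ∈ powersetCard r (nN n A c),
        if ¬ (v / M = c ∧ E v = U) ∧ ¬ Disjoint (E v) U then 1 else 0) =
        ∑ x ∈ E v, if (x, c) ∈ A then (d - 1).choose (r - 1) else 0 := by
      intro c hc
      obtain ⟨hcne, hcn⟩ := mem_erase.1 hc
      have hcn := mem_range.1 hcn
      rw [sum_congr rfl fun U _ => if_congr (show (¬ (v / M = c ∧ E v = U) ∧
        ¬ Disjoint (E v) U) ↔ ¬ Disjoint (E v) U from
          ⟨fun h1 => h1.2, fun h1 => ⟨fun h2 => hcne h2.1.symm, h1⟩⟩) rfl rfl]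
      rw [← card_filter]
      by_cases hx : ∃ x ∈ E v, (x, c) ∈ A
      · obtain ⟨x, hx, hxc⟩ := hx
        have huni : ∀ y ∈ E v, (y, c) ∈ A → y = x := fun y hy hyc =>
          h.uniq _ _ y x (Ne.symm hcne) (h.E_adj hv hy) (h.E_adj hv hx) (h.rg.symm _ hyc)
            (h.rg.symm _ hxc)
        rw [sum_eq_single_of_mem x hx fun y hy hyx => if_neg fun hyc => hyx (huni y hy hyc),
          if_pos hxc, ← card_nN h.rg hcn, ← card_mem_powersetCard ((mem_nN h.rg).2
            (h.rg.symm _ hxc)) hr1]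
        congr 1
        apply filter_congr
        intro U hU
        rw [not_disjoint_iff]
        constructor
        · rintro ⟨y, hy, hyU⟩
          have h2 := (mem_nN h.rg).1 ((mem_powersetCard.1 hU).1 hyU)
          rw [← huni y hy (h.rg.symm _ h2)]
          exact hyU
        · intro hxU
          exact ⟨x, hx, hxU⟩
      · push Not at hx
        rw [sum_eq_zero fun x hx' => if_neg (hx x hx'), card_eq_zero, filter_eq_empty_iff]
        intro U hU h1
        obtain ⟨y, hy, hyU⟩ := not_disjoint_iff.1 h1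
        exact hx y hy (h.rg.symm _ ((mem_nN h.rg).1 ((mem_powersetCard.1 hU).1 hyU)))
    rw [sum_congr rfl h1, sum_comm, ← h.card_E hv, ← smul_eq_mul, ← sum_const]
    refine sum_congr rfl fun x hx => ?_
    rw [← sum_filter, sum_const, smul_eq_mul]
    congr 1
    have h2 : ((range n).erase (v / M)).filter (fun c => (x, c) ∈ A) =
        (nN n A x).erase (v / M) := by
      ext c
      simp only [mem_filter, mem_erase, nN, mem_range]
      tauto
    rw [h2, card_erase_of_mem ((mem_nN h.rg).2 (h.rg.symm _ (h.E_adj hv hx))),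
      card_nN h.rg (h.E_lt hv hx)]
  · rw [← card_filter]
    have h1 : ((powersetCard r (nN n A (v / M))).filter fun U =>
        ¬ (v / M = v / M ∧ E v = U) ∧ ¬ Disjoint (E v) U) =
        ((powersetCard r (nN n A (v / M))) \
          ((powersetCard r (nN n A (v / M))).filter fun U => Disjoint U (E v))).erase (E v) := by
      ext U
      simp only [mem_filter, mem_erase, mem_sdiff, disjoint_comm (a := U)]
      constructor
      · rintro ⟨h1, h2, h3⟩
        exact ⟨fun h4 => h2 ⟨trivial, h4.symm⟩, h1, fun h5 => h3 h5.2⟩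
      · rintro ⟨h1, h2, h3⟩
        exact ⟨h2, fun h4 => h1 h4.2.symm, fun h5 => h3 ⟨h2, h5⟩⟩
    have h2 : ¬ Disjoint (E v) (E v) := by
      rw [disjoint_self]
      intro h3
      have h4 := h.card_E hv
      rw [h3] at h4
      simp at h4
      omega
    have h3 := (mem_powersetCard.1 (h.E_mem hv)).1
    rw [h1, card_erase_of_mem, card_sdiff_of_subset (filter_subset _ _), card_powersetCard,
      card_disj_powersetCard h3, card_nN h.rg (mem_range.1 hc0), h.card_E hv]
    exact mem_sdiff.2 ⟨h.E_mem hv, fun h4 => h2 (mem_filter.1 h4).2⟩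

end Mod

end Pool.Agent.H697.SF
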