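import Pool.Agent.H697.SF.Value

/-!
# Graphs of `r`-subsets of neighbourhoods: the reduction
-/

namespace Pool.Agent.H697.SF

open Finset Pool.Agent.NPC Pool.Agent.H697.SSE

/-- The `r`-subsets of `{0, ..., d - 1}`. -/
noncomputable def Tl (d r : ℕ) : List (List ℕ) :=
  (powersetCard r (range d)).toList.map fun s => s.toList

theorem length_Tl (d r : ℕ) : (Tl d r).length = d.choose r := by
  unfold Tl
  rw [List.length_map, length_toList, card_powersetCard, card_range]

/-- The list of the neighbours of `c`. -/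
def nbl (I : Inst) (c : ℕ) : List ℕ := ((darts I).filter fun e => decide (e.1 = c)).map Prod.snd

/-- The set of the vertex `v`. -/
def elt (L : List (List ℕ)) (I : Inst) (v : ℕ) : List ℕ :=
  (L.getD (v % L.length) []).map fun i => (nbl I (v / L.length)).getD i 0

/-- The sets of two different vertices meet. -/
def adjB (L : List (List ℕ)) (I : Inst) (e : ℕ × ℕ) : Bool :=
  !decide (e.1 = e.2) && (elt L I e.1).any fun x => decide (x ∈ elt L I e.2)

/-- The number of new vertices. -/
def nN' (L : List (List ℕ)) (I : Inst) : ℕ := min (nV I) (darts I).length * L.length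

/-- The reduction. -/
noncomputable def Psi (d r : ℕ) (I : Inst) : Inst :=
  (nV I * (Tl d r).length, Mod.deg d r,
    ((List.range (nN' (Tl d r) I)).flatMap fun u =>
      (List.range (nN' (Tl d r) I)).map fun v => (u, v)).filter (adjB (Tl d r) I))

/-! ### Polynomial time -/

theorem poly_nbl {α : Type} [TEnc α] {I : α → Inst} {c : α → ℕ} (hI : Poly I) (hc : Poly c) :
    Poly (fun a => nbl (I a) (c a)) := by
  unfold nbl
  refine NPC.Poly.map (F := fun (_ : α) (e : ℕ × ℕ) => e.2) ?_ (Poly.snd (Poly.snd Poly.id))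
  exact Poly.filter (p := fun a (e : ℕ × ℕ) => decide (e.1 = c a)) (poly_darts.comp hI)
    (Poly.decide_eq (Poly.fst (Poly.snd Poly.id)) (hc.comp (Poly.fst Poly.id)))

theorem poly_elt (L : List (List ℕ)) {α : Type} [TEnc α] {I : α → Inst} {v : α → ℕ}
    (hI : Poly I) (hv : Poly v) : Poly (fun a => elt L (I a) (v a)) := by
  unfold elt
  refine NPC.Poly.map (F := fun (a : α) (i : ℕ) => (nbl (I a) (v a / L.length)).getD i 0)
    (Poly.getD (NPC.Poly.const L) (Poly.mod hv (NPC.Poly.const _)) (NPC.Poly.const [])) ?_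
  exact Poly.getD (poly_nbl (hI.comp (Poly.fst Poly.id))
    (Poly.div (hv.comp (Poly.fst Poly.id)) (NPC.Poly.const _))) (Poly.snd Poly.id)
    (NPC.Poly.const 0)

theorem poly_adjB (L : List (List ℕ)) : Poly (fun p : Inst × (ℕ × ℕ) => adjB L p.1 p.2) := by
  unfold adjB
  have i : Poly (fun p : Inst × (ℕ × ℕ) => p) := Poly.id
  have e1 := Poly.fst (Poly.snd i)
  have e2 := Poly.snd (Poly.snd i)
  refine Poly.and (Poly.not (Poly.decide_eq e1 e2)) (Poly.any
    (p := fun (p : Inst × (ℕ × ℕ)) (x : ℕ) => decide (x ∈ elt L p.1 p.2.2))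
    (poly_elt L (Poly.fst i) e1) ?_)
  exact (Poly.decide_mem (Poly.snd Poly.id) (poly_elt L (Poly.fst (Poly.fst Poly.id))
    (Poly.snd (Poly.snd (Poly.fst Poly.id))))).congr fun _ => decide_eq_decide.2 Iff.rfl

theorem poly_Psi (d r : ℕ) : Poly (Psi d r) := by
  unfold Psi
  have hN : UPoly (nN' (Tl d r)) := by
    unfold nN'
    exact UPoly.mul (UPoly.of_le (Poly.min poly_nV (Poly.length poly_darts))
      (UPoly.length poly_darts) fun _ => min_le_right _ _) (UPoly.const _)
  refine Poly.pair (Poly.mul poly_nV (NPC.Poly.const _)) (Poly.pair (NPC.Poly.const _) ?_)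
  refine Poly.filter (p := fun (I : Inst) (e : ℕ × ℕ) => adjB (Tl d r) I e) ?_ (poly_adjB _)
  refine Poly.flatMap (F := fun (I : Inst) (u : ℕ) =>
    (List.range (nN' (Tl d r) I)).map fun v => (u, v)) hN.range ?_
  refine NPC.Poly.map (F := fun (p : Inst × ℕ) (v : ℕ) => (p.2, v))
    ((hN.comp (Poly.fst Poly.id)).range) ?_
  exact Poly.pair (Poly.snd (Poly.fst Poly.id)) (Poly.snd Poly.id)

/-! ### Structure -/

theorem nodup_nbl {I : Inst} (h : IsReg I) (c : ℕ) : (nbl I c).Nodup := by
  unfold nbl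
  refine List.Nodup.map_on ?_ (h.2.1.filter _)
  intro e he e' he' heq
  have h1 := (List.mem_filter.1 he).2
  have h2 := (List.mem_filter.1 he').2
  rw [decide_eq_true_eq] at h1 h2
  exact Prod.ext (h1.trans h2.symm) heq

theorem length_nbl {I : Inst} (h : IsReg I) {c : ℕ} (hc : c < nV I) :
    (nbl I c).length = dg I := by
  unfold nbl
  rw [List.length_map]
  exact h.2.2.2 c hc

theorem mem_nbl {I : Inst} {c x : ℕ} : x ∈ nbl I c ↔ (c, x) ∈ darts I := by
  unfold nbl
  rw [List.mem_map]
  constructor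
  · rintro ⟨e, he, rfl⟩
    obtain ⟨h1, h2⟩ := List.mem_filter.1 he
    rw [decide_eq_true_eq] at h2
    rw [← h2]
    exact h1
  · intro h1
    exact ⟨(c, x), List.mem_filter.2 ⟨h1, by simp⟩, rfl⟩

/-- Two different vertices have at most one common neighbour. -/
def Uniq (I : Inst) : Prop := ∀ c c' x y, c ≠ c' → (c, x) ∈ darts I → (c, y) ∈ darts I →
  (c', x) ∈ darts I → (c', y) ∈ darts I → x = y

theorem mod_Psi {I : Inst} (h : IsReg I) (hu : Uniq I) {r : ℕ} (hr : 2 ≤ r) (hrd : r ≤ dg I) :
    Mod (nV I) (dg I) r (Tl (dg I) r).length (darts I).toFinset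
      (fun v => (elt (Tl (dg I) r) I v).toFinset) := by
  set d := dg I with hd
  set M := (Tl d r).length with hM
  have hMc : M = d.choose r := length_Tl d r
  have hMpos : 0 < M := by
    rw [hMc]
    exact Nat.choose_pos hrd
  have hget : ∀ t < M, ∃ s ∈ powersetCard r (range d), (Tl d r).getD t [] = s.toList ∧
      (powersetCard r (range d)).toList.getD t ∅ = s := by
    intro t ht
    have ht' : t < (powersetCard r (range d)).toList.length := by
      rw [length_toList, card_powersetCard, card_range, ← hMc]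
      exact ht
    refine ⟨(powersetCard r (range d)).toList[t], mem_toList.1 (List.getElem_mem _), ?_, ?_⟩
    · rw [List.getD_eq_getElem _ _ ht]
      simp [Tl]
    · rw [List.getD_eq_getElem _ _ ht']
  have hinj : ∀ c < nV I, Set.InjOn (fun i => (nbl I c).getD i 0) (range d : Set ℕ) := by
    intro c hc i hi j hj hij
    rw [mem_coe, mem_range] at hi hj
    have hl := length_nbl h hc
    beta_reduce at hij
    rw [List.getD_eq_getElem _ _ (by omega), List.getD_eq_getElem _ _ (by omega)] at hij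
    exact (List.Nodup.getElem_inj_iff (nodup_nbl h c)).1 hij
  have helt : ∀ c < nV I, ∀ t < M, (elt (Tl d r) I (c * M + t)).toFinset =
      ((powersetCard r (range d)).toList.getD t ∅).image fun i => (nbl I c).getD i 0 := by
    intro c _ t ht
    have h1 : (c * M + t) / M = c := by
      rw [mul_comm, Nat.mul_add_div hMpos, Nat.div_eq_of_lt ht, Nat.add_zero]
    have h2 : (c * M + t) % M = t := by
      rw [mul_comm, Nat.mul_add_mod, Nat.mod_eq_of_lt ht]
    unfold elt
    rw [← hM, h1, h2]
    obtain ⟨s, _, hs1, hs2⟩ := hget t ht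
    rw [hs1, hs2]
    ext x
    simp
  refine ⟨h.rg, ?_, hMc, hr, hrd, ?_, ?_⟩
  · intro c c' x y hcc h1 h2 h3 h4
    exact hu c c' x y hcc (List.mem_toFinset.1 h1) (List.mem_toFinset.1 h2)
      (List.mem_toFinset.1 h3) (List.mem_toFinset.1 h4)
  · intro c hc t ht
    rw [helt c hc t ht]
    obtain ⟨s, hs, _, hs2⟩ := hget t ht
    obtain ⟨hs3, hs4⟩ := mem_powersetCard.1 hs
    rw [hs2]
    refine mem_powersetCard.2 ⟨?_, ?_⟩
    · intro x hx
      obtain ⟨i, hi, rfl⟩ := mem_image.1 hx
      have hi' := mem_range.1 (hs3 hi)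
      have hl := length_nbl h hc
      rw [mem_nN h.rg, List.mem_toFinset, ← mem_nbl, List.getD_eq_getElem _ _ (by omega)]
      exact List.getElem_mem _
    · rw [card_image_of_injOn ((hinj c hc).mono (coe_subset.2 hs3)), hs4]
  · intro c hc t ht t' ht' heq
    beta_reduce at heq
    rw [helt c hc t ht, helt c hc t' ht'] at heq
    obtain ⟨s, hs, _, hs2⟩ := hget t ht
    obtain ⟨s', hs', _, hs2'⟩ := hget t' ht'
    rw [hs2, hs2'] at heq
    have h1 : s = s' := by
      have h2 := (mem_powersetCard.1 hs).1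
      have h3 := (mem_powersetCard.1 hs').1
      ext i
      constructor
      · intro hi
        have h4 : (nbl I c).getD i 0 ∈ s'.image fun i => (nbl I c).getD i 0 := by
          rw [← heq]
          exact mem_image_of_mem _ hi
        obtain ⟨j, hj, hji⟩ := mem_image.1 h4
        rw [← hinj c hc (h3 hj) (h2 hi) hji]
        exact hj
      · intro hi
        have h4 : (nbl I c).getD i 0 ∈ s.image fun i => (nbl I c).getD i 0 := by
          rw [heq]
          exact mem_image_of_mem _ hi
        obtain ⟨j, hj, hji⟩ := mem_image.1 h4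
        rw [← hinj c hc (h2 hj) (h3 hi) hji]
        exact hj
    rw [← hs2, ← hs2'] at h1
    have hlen : (powersetCard r (range d)).toList.length = M := by
      rw [length_toList, card_powersetCard, card_range, ← hMc]
    rw [List.getD_eq_getElem _ _ (by omega), List.getD_eq_getElem _ _ (by omega)] at h1
    exact (List.Nodup.getElem_inj_iff (nodup_toList _)).1 h1

theorem le_length_darts {I : Inst} (h : IsReg I) : nV I ≤ (darts I).length := by
  rw [(St.start h).length h, card_range]
  exact Nat.le_mul_of_pos_left _ h.1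

theorem darts_Psi {I : Inst} (h : IsReg I) (r : ℕ) : (darts (Psi (dg I) r I)).toFinset =
    adjA (nV I * (Tl (dg I) r).length) (fun v => (elt (Tl (dg I) r) I v).toFinset) := by
  have hN : nN' (Tl (dg I) r) I = nV I * (Tl (dg I) r).length := by
    unfold nN'
    rw [min_eq_left (le_length_darts h)]
  ext ⟨u, v⟩
  have h1 : darts (Psi (dg I) r I) = ((List.range (nN' (Tl (dg I) r) I)).flatMap fun u =>
      (List.range (nN' (Tl (dg I) r) I)).map fun v => (u, v)).filter (adjB (Tl (dg I) r) I) := rfl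
  rw [List.mem_toFinset, h1, List.mem_filter, List.mem_flatMap, mem_adjA, hN]
  unfold adjB
  simp only [List.mem_range, List.mem_map, Prod.mk.injEq, Bool.and_eq_true, Bool.not_eq_true',
    decide_eq_false_iff_not, List.any_eq_true, decide_eq_true_eq, not_disjoint_iff,
    List.mem_toFinset]
  constructor
  · rintro ⟨⟨a, ha, b, hb, rfl, rfl⟩, h2, h3⟩
    exact ⟨ha, hb, h2, h3⟩
  · rintro ⟨ha, hb, h2, h3⟩
    exact ⟨⟨u, ha, v, hb, rfl, rfl⟩, h2, h3⟩

theorem nodup_Psi (d r : ℕ) (I : Inst) : (darts (Psi d r I)).Nodup := by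
  have h1 : darts (Psi d r I) = ((List.range (nN' (Tl d r) I)).flatMap fun u =>
      (List.range (nN' (Tl d r) I)).map fun v => (u, v)).filter (adjB (Tl d r) I) := rfl
  rw [h1]
  refine List.Nodup.filter _ ?_
  rw [List.nodup_flatMap]
  refine ⟨fun u _ => List.nodup_range.map fun a b hab => (Prod.mk.inj hab).2, ?_⟩
  refine List.Nodup.pairwise_of_forall_ne List.nodup_range ?_
  intro a _ b _ hab
  rw [Function.onFun, List.disjoint_left]
  intro e he he'
  obtain ⟨_, _, rfl⟩ := List.mem_map.1 he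
  obtain ⟨_, _, h2⟩ := List.mem_map.1 he'
  exact hab (Prod.mk.inj h2).1.symm

theorem isReg_of_rg {n d : ℕ} {l : List (ℕ × ℕ)} (hd : 0 < d) (hl : l.Nodup)
    (h : RG n d l.toFinset) : IsReg (n, d, l) := by
  refine ⟨hd, hl, ?_, ?_⟩
  · intro e he
    have he' := List.mem_toFinset.2 he
    exact ⟨h.lt e he', h.lt2 he', h.irr e he', List.mem_toFinset.1 (h.symm e he')⟩
  · intro v hv
    have h1 := h.deg v hv
    change (l.filter fun e => decide (e.1 = v)).length = d
    rw [filter_toFinset_card _ hl, ← h1]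
    simp only [decide_eq_true_eq]

theorem isReg_Psi {I : Inst} (h : IsReg I) (hu : Uniq I) {r : ℕ} (hr : 2 ≤ r)
    (hrd : r ≤ dg I) : IsReg (Psi (dg I) r I) := by
  have hm := mod_Psi h hu hr hrd
  refine isReg_of_rg ?_ (nodup_Psi _ _ _) ?_
  · refine lt_of_lt_of_le ?_ Mod.deg_ge
    have h1 : 0 < (dg I - 1).choose (r - 1) := Nat.choose_pos (by omega)
    have h2 : 0 < dg I - 1 := by omega
    positivity
  · have h1 := darts_Psi h r
    have h2 : darts (Psi (dg I) r I) = ((List.range (nN' (Tl (dg I) r) I)).flatMap fun u =>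
      (List.range (nN' (Tl (dg I) r) I)).map fun v => (u, v)).filter (adjB (Tl (dg I) r) I) := rfl
    rw [h2] at h1
    rw [h1]
    exact hm.rg'

/-- The line graphs of simple `r`-uniform hypergraphs: the vertices stand for different sets of
`r` elements, and two vertices are adjacent if and only if their sets meet. -/
def IsLine (r : ℕ) (I : Inst) : Prop := ∃ E : ℕ → Finset ℕ,
  (∀ v < nV I, (E v).card = r) ∧ (∀ u < nV I, ∀ v < nV I, E u = E v → u = v) ∧
  ∀ u < nV I, ∀ v < nV I, ((u, v) ∈ darts I ↔ u ≠ v ∧ ¬ Disjoint (E u) (E v))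

theorem isLine_Psi {I : Inst} (h : IsReg I) (hu : Uniq I) {r : ℕ} (hr : 2 ≤ r)
    (hrd : r ≤ dg I) : IsLine r (Psi (dg I) r I) := by
  have hm := mod_Psi h hu hr hrd
  refine ⟨fun v => (elt (Tl (dg I) r) I v).toFinset, fun v hv => hm.card_E hv,
    fun u hu v hv huv => hm.E_inj hu hv huv, fun u hu v hv => ?_⟩
  rw [← List.mem_toFinset, darts_Psi h r, mem_adjA]
  exact ⟨fun h1 => h1.2.2, fun h1 => ⟨hu, hv, h1⟩⟩

/-- Line graphs of `r`-uniform hypergraphs have no induced star with `r + 1` leaves. -/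
theorem IsLine.starFree {r : ℕ} {I : Inst} (h : IsLine r I) : StarFree r I := by
  obtain ⟨E, hE, _, hadj⟩ := h
  constructor
  intro φ
  set c : Fin (nV I) := φ (Sum.inl 0) with hc
  set f : Fin (r + 1) → Fin (nV I) := fun i => φ (Sum.inr i) with hf
  have h1 : ∀ i, ∃ x ∈ E c, x ∈ E (f i) := by
    intro i
    have h2 : (gr I).Adj c (f i) := φ.map_adj_iff.2 (by simp)
    have h3 := ((hadj c c.2 (f i) (f i).2).1 h2.2.1).2
    exact not_disjoint_iff.1 h3
  choose g hg1 hg2 using h1
  obtain ⟨i, _, j, _, hij, hgij⟩ := exists_ne_map_eq_of_card_lt_of_maps_to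
    (s := (univ : Finset (Fin (r + 1)))) (t := E c)
    (by rw [hE c c.2, card_univ, Fintype.card_fin]; omega)
    (f := g) (fun i _ => hg1 i)
  have hne : f i ≠ f j := fun h2 => hij (by simpa using φ.injective h2)
  have h2 : ¬ (gr I).Adj (f i) (f j) := fun h3 => by
    have h4 := φ.map_adj_iff.1 h3
    simp at h4
  apply h2
  have h3 : ¬ Disjoint (E (f i)) (E (f j)) := not_disjoint_iff.2
    ⟨g i, hg2 i, by rw [hgij]; exact hg2 j⟩
  have hne' : (f i : ℕ) ≠ (f j : ℕ) := fun h4 => hne (Fin.ext h4)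
  exact ⟨hne, (hadj _ (f i).2 _ (f j).2).2 ⟨hne', h3⟩,
    (hadj _ (f j).2 _ (f i).2).2 ⟨hne'.symm, fun h5 => h3 h5.symm⟩⟩

end Pool.Agent.H697.SF
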