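import Pool.Agent.H697.SF.Model

/-!
# Graphs of `r`-subsets of neighbourhoods: expansion
-/

namespace Pool.Agent.H697.SF

open Finset Pool.Agent.NPC Pool.Agent.H697.SSE

/-- The pairs of different vertices whose sets meet. -/
def adjA (N : ℕ) (E : ℕ → Finset ℕ) : Finset (ℕ × ℕ) :=
  (range N ×ˢ range N).filter fun e => e.1 ≠ e.2 ∧ ¬ Disjoint (E e.1) (E e.2)

theorem mem_adjA {N : ℕ} {E : ℕ → Finset ℕ} {u v : ℕ} : (u, v) ∈ adjA N E ↔
    u < N ∧ v < N ∧ u ≠ v ∧ ¬ Disjoint (E u) (E v) := by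
  unfold adjA
  simp only [mem_filter, mem_product, mem_range]
  tauto

namespace Mod

variable {n d r M : ℕ} {A : Finset (ℕ × ℕ)} {E : ℕ → Finset ℕ}

theorem rg' (h : Mod n d r M A E) : RG (n * M) (deg d r) (adjA (n * M) E) where
  lt e he := (mem_adjA.1 he).1
  symm e he := by
    obtain ⟨h1, h2, h3, h4⟩ := mem_adjA.1 he
    exact mem_adjA.2 ⟨h2, h1, h3.symm, fun h5 => h4 h5.symm⟩
  irr e he := (mem_adjA.1 he).2.2.1
  deg u hu := by
    rw [← h.card_adj hu]
    refine card_bij (fun e _ => e.2) ?_ ?_ ?_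
    · intro e he
      obtain ⟨h1, h2⟩ := mem_filter.1 he
      obtain ⟨h3, h4, h5, h6⟩ := mem_adjA.1 h1
      rw [h2] at h5 h6
      exact mem_filter.2 ⟨mem_range.2 h4, h5, h6⟩
    · intro e he e' he' heq
      exact Prod.ext ((mem_filter.1 he).2.trans (mem_filter.1 he').2.symm) heq
    · intro v hv
      obtain ⟨h1, h2, h3⟩ := mem_filter.1 hv
      exact ⟨(u, v), mem_filter.2 ⟨mem_adjA.2 ⟨hu, mem_range.1 h1, h2, h3⟩, rfl⟩, rfl⟩

/-- The number of sets over `S` that contain a given vertex. -/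
theorem card_star_on (h : Mod n d r M A E) {S : Finset ℕ} (hS : S ⊆ range n) (x : ℕ) :
    ((range (n * M)).filter fun v => v / M ∈ S ∧ x ∈ E v).card =
      (d - 1).choose (r - 1) * dgS A S x := by
  rw [card_filter, h.sum_range fun c U => if c ∈ S ∧ x ∈ U then 1 else 0]
  have h1 : ∀ c ∈ range n, (∑ U ∈ powersetCard r (nN n A c), if c ∈ S ∧ x ∈ U then 1 else 0) =
      if c ∈ S ∧ (x, c) ∈ A then (d - 1).choose (r - 1) else 0 := by
    intro c hc
    by_cases hcS : c ∈ S
    · simp only [hcS, true_and]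
      rw [← card_filter]
      by_cases hxc : (x, c) ∈ A
      · rw [if_pos hxc, card_mem_powersetCard ((mem_nN h.rg).2 (h.rg.symm _ hxc))
          (by have := h.hr; omega), card_nN h.rg (mem_range.1 hc)]
      · rw [if_neg hxc, card_eq_zero, filter_eq_empty_iff]
        intro U hU hxU
        exact hxc (h.rg.symm _ ((mem_nN h.rg).1 ((mem_powersetCard.1 hU).1 hxU)))
    · simp [hcS]
  rw [sum_congr rfl h1, ← sum_filter, sum_const, smul_eq_mul, mul_comm]
  congr 1
  rw [dgS_eq]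
  congr 1
  ext c
  simp only [mem_filter]
  constructor
  · rintro ⟨_, h2, h3⟩
    exact ⟨h2, h3⟩
  · rintro ⟨h2, h3⟩
    exact ⟨hS h2, h2, h3⟩

/-- The vertices over `S`. -/
def ovr (n M : ℕ) (S : Finset ℕ) : Finset ℕ := (range (n * M)).filter fun v => v / M ∈ S

theorem card_over (h : Mod n d r M A E) {S : Finset ℕ} (hS : S ⊆ range n) :
    (ovr n M S).card = S.card * M := by
  unfold ovr
  rw [card_filter, h.sum_range fun c _ => if c ∈ S then 1 else 0]
  have h1 : ∀ c ∈ range n, (∑ U ∈ powersetCard r (nN n A c), if c ∈ S then 1 else 0) =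
      if c ∈ S then M else 0 := by
    intro c hc
    rw [sum_const, card_powersetCard, card_nN h.rg (mem_range.1 hc), ← h.hM, smul_eq_mul]
    split_ifs <;> simp
  rw [sum_congr rfl h1, ← sum_filter, sum_const, smul_eq_mul]
  congr 2
  ext c
  simp only [mem_filter]
  exact ⟨fun h2 => h2.2, fun h2 => ⟨hS h2, h2⟩⟩

/-- The expansion of the vertices over a set. -/
theorem outer_over (h : Mod n d r M A E) {S : Finset ℕ} (hS : S ⊆ range n) :
    outer (adjA (n * M) E) (ovr n M S) ≤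
      ((d - 1).choose (r - 1)) ^ 2 * (2 * (d * outer A S)) := by
  set C := (d - 1).choose (r - 1) with hC
  set R := range n \ S with hR
  have hRn : R ⊆ range n := sdiff_subset
  have hdR : ∀ x < n, dgS A R x + dgS A S x = d := by
    intro x hx
    rw [dgS_eq, dgS_eq, ← card_nN h.rg hx, ← card_union_of_disjoint]
    · congr 1
      ext y
      simp only [mem_union, mem_filter, hR, mem_sdiff, mem_nN h.rg]
      constructor
      · rintro (h1 | h1)
        · exact h1.2
        · exact h1.2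
      · intro h1
        by_cases h2 : y ∈ S
        · exact Or.inr ⟨h2, h1⟩
        · exact Or.inl ⟨⟨mem_range.2 (h.rg.lt2 h1), h2⟩, h1⟩
    · rw [disjoint_left]
      intro y hy hy'
      exact (mem_sdiff.1 (mem_filter.1 hy).1).2 (mem_filter.1 hy').1
  have h1 : outer (adjA (n * M) E) (ovr n M S) ≤
      ∑ x ∈ range n, (C * dgS A S x) * (C * dgS A R x) := by
    have hsub : ((adjA (n * M) E).filter fun e => e.1 ∈ ovr n M S ∧ e.2 ∉ ovr n M S) ⊆
        (range n).biUnion fun x => ((range (n * M)).filter fun v => v / M ∈ S ∧ x ∈ E v) ×ˢ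
          ((range (n * M)).filter fun v => v / M ∈ R ∧ x ∈ E v) := by
      rintro ⟨u, v⟩ he
      obtain ⟨h1, h2, h3⟩ := mem_filter.1 he
      obtain ⟨h4, h5, _, h6⟩ := mem_adjA.1 h1
      obtain ⟨x, hx, hx'⟩ := not_disjoint_iff.1 h6
      refine mem_biUnion.2 ⟨x, mem_range.2 (h.E_lt h4 hx), mem_product.2
        ⟨mem_filter.2 ⟨mem_range.2 h4, (mem_filter.1 h2).2, hx⟩,
          mem_filter.2 ⟨mem_range.2 h5, ?_, hx'⟩⟩⟩
      refine mem_sdiff.2 ⟨mem_range.2 (h.div_lt h5), fun h7 => h3 ?_⟩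
      exact mem_filter.2 ⟨mem_range.2 h5, h7⟩
    unfold outer
    refine (card_le_card hsub).trans (card_biUnion_le.trans (sum_le_sum fun x _ => ?_))
    rw [card_product, h.card_star_on hS, h.card_star_on hRn]
  refine h1.trans ?_
  have h2 : ∑ x ∈ range n, (C * dgS A S x) * (C * dgS A R x) =
      C ^ 2 * ∑ x ∈ range n, dgS A S x * dgS A R x := by
    rw [mul_sum]
    exact sum_congr rfl fun x _ => by ring
  rw [h2]
  refine Nat.mul_le_mul_left _ ?_
  have hout : ∑ x ∈ S, dgS A R x = outer A S := by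
    rw [← sum_out h.rg hS]
    exact sum_congr rfl fun x hx => by
      have := hdR x (mem_range.1 (hS hx))
      omega
  have hout' : ∑ x ∈ R, dgS A S x = outer A S := by
    rw [← hout, sum_dgS_symm h.rg]
  have h3 : ∑ x ∈ range n, dgS A S x * dgS A R x =
      ∑ x ∈ R, dgS A S x * dgS A R x + ∑ x ∈ S, dgS A S x * dgS A R x := by
    rw [hR, sum_sdiff hS]
  rw [h3]
  have h4 : ∑ x ∈ R, dgS A S x * dgS A R x ≤ d * outer A S := by
    rw [← hout', mul_sum]
    refine sum_le_sum fun x _ => ?_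
    rw [mul_comm]
    exact Nat.mul_le_mul_right _ (h.rg.dgS_le R x)
  have h5 : ∑ x ∈ S, dgS A S x * dgS A R x ≤ d * outer A S := by
    rw [← hout, mul_sum]
    exact sum_le_sum fun x _ => Nat.mul_le_mul_right _ (h.rg.dgS_le S x)
  omega

/-- The number of sets of `S'` that contain `x`. -/
def sx (E : ℕ → Finset ℕ) (S' : Finset ℕ) (x : ℕ) : ℕ := (S'.filter fun v => x ∈ E v).card

theorem inner_le_sx (h : Mod n d r M A E) {S' : Finset ℕ} :
    SSE.inner (adjA (n * M) E) S' ≤ ∑ x ∈ range n, sx E S' x ^ 2 := by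
  have hsub : ((adjA (n * M) E).filter fun e => e.1 ∈ S' ∧ e.2 ∈ S') ⊆
      (range n).biUnion fun x => (S'.filter fun v => x ∈ E v) ×ˢ (S'.filter fun v => x ∈ E v) := by
    rintro ⟨u, v⟩ he
    obtain ⟨h1, h2, h3⟩ := mem_filter.1 he
    obtain ⟨h4, h5, _, h6⟩ := mem_adjA.1 h1
    obtain ⟨x, hx, hx'⟩ := not_disjoint_iff.1 h6
    exact mem_biUnion.2 ⟨x, mem_range.2 (h.E_lt h4 hx), mem_product.2
      ⟨mem_filter.2 ⟨h2, hx⟩, mem_filter.2 ⟨h3, hx'⟩⟩⟩
  unfold SSE.inner
  refine (card_le_card hsub).trans (card_biUnion_le.trans (sum_le_sum fun x _ => ?_))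
  rw [card_product, sq]
  exact le_rfl

theorem sum_sx_on (_h : Mod n d r M A E) {S' : Finset ℕ} (_hS : S' ⊆ range (n * M))
    {T : Finset ℕ} (_hT : T ⊆ range n) :
    ∑ x ∈ T, sx E S' x = ∑ v ∈ S', (E v ∩ T).card := by
  unfold sx
  simp only [card_filter]
  rw [sum_comm]
  refine sum_congr rfl fun v _ => ?_
  rw [← card_filter]
  congr 1
  ext x
  simp only [mem_filter, mem_inter]
  tauto

theorem sum_sx (h : Mod n d r M A E) {S' : Finset ℕ} (hS : S' ⊆ range (n * M)) :
    ∑ x ∈ range n, sx E S' x = r * S'.card := by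
  rw [h.sum_sx_on hS (Subset.refl _), mul_comm, ← smul_eq_mul, ← sum_const]
  refine sum_congr rfl fun v hv => ?_
  have hv' := mem_range.1 (hS hv)
  rw [inter_eq_left.2 fun x hx => mem_range.2 (h.E_lt hv' hx), h.card_E hv']

theorem sx_le (h : Mod n d r M A E) {S' : Finset ℕ} (hS : S' ⊆ range (n * M)) {x : ℕ}
    (hx : x < n) : sx E S' x ≤ d * (d - 1).choose (r - 1) := by
  rw [← h.card_star hx]
  exact card_le_card (filter_subset_filter _ hS)

/-- The multiplicities in a set of vertices. -/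
theorem sum_excess (h : Mod n d r M A E) (T : Finset ℕ) :
    ∑ v ∈ range (n * M), (E v ∩ T).card * ((E v ∩ T).card - 1) ≤
      (d - 2).choose (r - 2) * ∑ c ∈ range n, dgS A T c ^ 2 := by
  rw [h.sum_range fun _ U => (U ∩ T).card * ((U ∩ T).card - 1), mul_sum]
  refine sum_le_sum fun c hc => ?_
  have hc' := mem_range.1 hc
  have h1 : ∀ U ∈ powersetCard r (nN n A c), (U ∩ T).card * ((U ∩ T).card - 1) =
      ∑ p ∈ (nN n A c ∩ T).offDiag, if p.1 ∈ U ∧ p.2 ∈ U then 1 else 0 := by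
    intro U hU
    rw [Nat.mul_sub_one, ← offDiag_card, ← card_filter]
    have hUN := (mem_powersetCard.1 hU).1
    congr 1
    ext p
    simp only [mem_offDiag, mem_filter, mem_inter]
    constructor
    · rintro ⟨⟨a1, a2⟩, ⟨a3, a4⟩, a5⟩
      exact ⟨⟨⟨hUN a1, a2⟩, ⟨hUN a3, a4⟩, a5⟩, a1, a3⟩
    · rintro ⟨⟨⟨_, a2⟩, ⟨_, a4⟩, a5⟩, a1, a3⟩
      exact ⟨⟨a1, a2⟩, ⟨a3, a4⟩, a5⟩
  rw [sum_congr rfl h1, sum_comm]
  have h2 : ∀ p ∈ (nN n A c ∩ T).offDiag, (∑ U ∈ powersetCard r (nN n A c),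
      if p.1 ∈ U ∧ p.2 ∈ U then 1 else 0) = (d - 2).choose (r - 2) := by
    intro p hp
    obtain ⟨h3, h4, h5⟩ := mem_offDiag.1 hp
    rw [← card_filter, card_mem_mem_powersetCard (mem_inter.1 h3).1 (mem_inter.1 h4).1 h5 h.hr,
      card_nN h.rg hc']
  rw [sum_congr rfl h2, sum_const, smul_eq_mul, mul_comm]
  refine Nat.mul_le_mul_left _ ?_
  have h3 : dgS A T c = (nN n A c ∩ T).card := by
    rw [dgS_eq]
    congr 1
    ext x
    simp only [mem_filter, mem_inter, mem_nN h.rg]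
    tauto
  rw [h3, offDiag_card, sq]
  exact Nat.sub_le _ _

theorem K_eq (h : Mod n d r M A E) : d * (d - 1).choose (r - 1) = r * M := by
  have hr := h.hr
  have hrd := h.hrd
  obtain ⟨d', rfl⟩ : ∃ d', d = d' + 1 := ⟨d - 1, by omega⟩
  obtain ⟨r', rfl⟩ : ∃ r', r = r' + 1 := ⟨r - 1, by omega⟩
  rw [h.hM, Nat.add_sub_cancel, Nat.add_sub_cancel, Nat.add_one_mul_choose_eq, mul_comm]

end Mod

/-- Two steps from a small set. -/
theorem two_step {n d : ℕ} {A : Finset (ℕ × ℕ)} (h : RG n d A) (hd : 0 < d) {T : Finset ℕ}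
    (hT : T ⊆ range n) {m : ℕ} : ∃ Z ⊆ range n, Z.card ≤ (m + 1) * T.card ∧
      m * ∑ c ∈ range n, dgS A T c ^ 2 ≤ d * (d * T.card) + m * (d * SSE.inner A Z) := by
  set B := (range n).filter fun c => d ≤ m * dgS A T c with hB
  have hsum : ∑ c ∈ range n, dgS A T c ≤ d * T.card := by
    rw [sum_dgS_symm h, mul_comm, ← smul_eq_mul, ← sum_const]
    exact sum_le_sum fun x _ => h.dgS_le _ x
  have hBn : B ⊆ range n := filter_subset _ _
  refine ⟨B ∪ T, union_subset hBn hT, ?_, ?_⟩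
  · have h1 : B.card * d ≤ m * (d * T.card) := by
      calc B.card * d = ∑ c ∈ B, d := by rw [sum_const, smul_eq_mul]
        _ ≤ ∑ c ∈ B, m * dgS A T c := sum_le_sum fun c hc => (mem_filter.1 hc).2
        _ ≤ ∑ c ∈ range n, m * dgS A T c := sum_le_sum_of_subset hBn
        _ = m * ∑ c ∈ range n, dgS A T c := by rw [mul_sum]
        _ ≤ _ := Nat.mul_le_mul_left _ hsum
    have h2 : B.card ≤ m * T.card := by
      apply Nat.le_of_mul_le_mul_left (c := d) _ hd
      calc d * B.card = B.card * d := mul_comm _ _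
        _ ≤ m * (d * T.card) := h1
        _ = _ := by ring
    have h3 := card_union_le B T
    have h4 : (m + 1) * T.card = m * T.card + T.card := by ring
    omega
  · rw [← sum_sdiff hBn, Nat.mul_add]
    refine Nat.add_le_add ?_ (Nat.mul_le_mul_left _ ?_)
    · rw [mul_sum]
      calc ∑ c ∈ range n \ B, m * dgS A T c ^ 2 ≤ ∑ c ∈ range n \ B, d * dgS A T c := by
            refine sum_le_sum fun c hc => ?_
            obtain ⟨h1, h2⟩ := mem_sdiff.1 hc
            have h3 : m * dgS A T c ≤ d := by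
              by_contra h4
              push Not at h4
              exact h2 (mem_filter.2 ⟨h1, h4.le⟩)
            calc m * dgS A T c ^ 2 = (m * dgS A T c) * dgS A T c := by ring
              _ ≤ _ := Nat.mul_le_mul_right _ h3
        _ ≤ ∑ c ∈ range n, d * dgS A T c := sum_le_sum_of_subset sdiff_subset
        _ = d * ∑ c ∈ range n, dgS A T c := by rw [mul_sum]
        _ ≤ _ := Nat.mul_le_mul_left _ hsum
    · calc ∑ c ∈ B, dgS A T c ^ 2 ≤ ∑ c ∈ B, d * dgS A T c := by
            refine sum_le_sum fun c _ => ?_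
            rw [sq]
            exact Nat.mul_le_mul_right _ (h.dgS_le T c)
        _ = d * ∑ c ∈ B, dgS A T c := by rw [mul_sum]
        _ ≤ d * ∑ c ∈ B ∪ T, dgS A (B ∪ T) c := by
            refine Nat.mul_le_mul_left _ (le_trans ?_ (sum_le_sum_of_subset subset_union_left))
            refine sum_le_sum fun c _ => ?_
            rw [dgS_eq, dgS_eq]
            exact card_le_card (filter_subset_filter _ subset_union_right)
        _ = _ := by rw [RG.sum_dgS]

namespace Mod

variable {n d r M : ℕ} {A : Finset (ℕ × ℕ)} {E : ℕ → Finset ℕ}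

/-- The number of inner pairs of a set of vertices. -/
theorem no_bound (h : Mod n d r M A E) {k M1 M2 : ℕ} (hM1 : 0 < M1) (hM2 : 0 < M2) {B : ℝ}
    (hB : ∀ Z ⊆ range n, Z.card ≤ (M2 + 1) * (M1 * k) → (SSE.inner A Z : ℝ) ≤ B)
    {S' : Finset ℕ} (hS : S' ⊆ range (n * M)) (hc : S'.card = k * M) :
    (SSE.inner (adjA (n * M) E) S' : ℝ) ≤ (r * M) * ((1 + r / M1) * (k * M) +
      (d - 2).choose (r - 2) * (d * (d * (M1 * k)) / M2 + d * B)) := by
  have hMpos := h.Mpos
  have hr := h.hr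
  have hd : 0 < d := by have := h.hrd; omega
  have hK := h.K_eq
  have hKpos : 0 < r * M := by positivity
  set T := (range n).filter fun x => r * M ≤ M1 * sx E S' x with hT
  have hTn : T ⊆ range n := filter_subset _ _
  have hsum := h.sum_sx hS
  rw [hc] at hsum
  have hTc : T.card ≤ M1 * k := by
    apply Nat.le_of_mul_le_mul_left (c := r * M) _ hKpos
    calc r * M * T.card = ∑ x ∈ T, r * M := by rw [sum_const, smul_eq_mul, mul_comm]
      _ ≤ ∑ x ∈ T, M1 * sx E S' x := sum_le_sum fun x hx => (mem_filter.1 hx).2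
      _ ≤ ∑ x ∈ range n, M1 * sx E S' x := sum_le_sum_of_subset hTn
      _ = M1 * ∑ x ∈ range n, sx E S' x := by rw [mul_sum]
      _ = _ := by
        rw [hsum]
        ring
  have hlight : M1 * ∑ x ∈ range n \ T, sx E S' x ^ 2 ≤ (r * M) * (r * (k * M)) := by
    rw [mul_sum, ← hsum, mul_sum]
    refine le_trans (sum_le_sum fun x hx => ?_) (sum_le_sum_of_subset (sdiff_subset (t := T)))
    obtain ⟨h1, h2⟩ := mem_sdiff.1 hx
    have h3 : M1 * sx E S' x ≤ r * M := by
      by_contra h4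
      push Not at h4
      exact h2 (mem_filter.2 ⟨h1, h4.le⟩)
    calc M1 * sx E S' x ^ 2 = (M1 * sx E S' x) * sx E S' x := by ring
      _ ≤ _ := Nat.mul_le_mul_right _ h3
  have hheavy : ∑ x ∈ T, sx E S' x ^ 2 ≤ (r * M) * (k * M +
      (d - 2).choose (r - 2) * ∑ c ∈ range n, dgS A T c ^ 2) := by
    calc ∑ x ∈ T, sx E S' x ^ 2 ≤ ∑ x ∈ T, (r * M) * sx E S' x := by
          refine sum_le_sum fun x hx => ?_
          rw [sq, ← hK]
          exact Nat.mul_le_mul_right _ (h.sx_le hS (mem_range.1 (hTn hx)))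
      _ = (r * M) * ∑ x ∈ T, sx E S' x := by rw [mul_sum]
      _ ≤ _ := by
        refine Nat.mul_le_mul_left _ ?_
        rw [h.sum_sx_on hS hTn]
        calc ∑ v ∈ S', (E v ∩ T).card ≤
            ∑ v ∈ S', (1 + (E v ∩ T).card * ((E v ∩ T).card - 1)) := by
              refine sum_le_sum fun v _ => ?_
              rcases Nat.lt_or_ge (E v ∩ T).card 2 with h1 | h1
              · omega
              · have h2 : (E v ∩ T).card * 1 ≤ (E v ∩ T).card * ((E v ∩ T).card - 1) :=
                  Nat.mul_le_mul_left _ (by omega)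
                omega
          _ = k * M + ∑ v ∈ S', (E v ∩ T).card * ((E v ∩ T).card - 1) := by
              rw [sum_add_distrib, sum_const, smul_eq_mul, mul_one, hc]
          _ ≤ k * M + ∑ v ∈ range (n * M), (E v ∩ T).card * ((E v ∩ T).card - 1) :=
              Nat.add_le_add_left (sum_le_sum_of_subset hS) _
          _ ≤ _ := Nat.add_le_add_left (h.sum_excess T) _
  obtain ⟨Z, hZ, hZc, hZs⟩ := two_step h.rg hd hTn (m := M2)
  have hZB := hB Z hZ (hZc.trans (Nat.mul_le_mul_left _ hTc))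
  have hM1' : (0 : ℝ) < M1 := by exact_mod_cast hM1
  have hM2' : (0 : ℝ) < M2 := by exact_mod_cast hM2
  have h1 : (SSE.inner (adjA (n * M) E) S' : ℝ) ≤
      ∑ x ∈ range n \ T, (sx E S' x : ℝ) ^ 2 + ∑ x ∈ T, (sx E S' x : ℝ) ^ 2 := by
    have h2 := h.inner_le_sx (S' := S')
    rw [← sum_sdiff hTn] at h2
    exact_mod_cast h2
  have h2 : ∑ x ∈ range n \ T, (sx E S' x : ℝ) ^ 2 ≤ (r * M) * (r / M1 * (k * M)) := by
    have h3 : (M1 : ℝ) * ∑ x ∈ range n \ T, (sx E S' x : ℝ) ^ 2 ≤ (r * M) * (r * (k * M)) := by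
      exact_mod_cast hlight
    rw [← mul_le_mul_iff_right₀ hM1']
    refine h3.trans (le_of_eq ?_)
    field_simp
  have h3 : ∑ x ∈ T, (sx E S' x : ℝ) ^ 2 ≤ (r * M) * (k * M +
      (d - 2).choose (r - 2) * ∑ c ∈ range n, (dgS A T c : ℝ) ^ 2) := by exact_mod_cast hheavy
  have h4 : ∑ c ∈ range n, (dgS A T c : ℝ) ^ 2 ≤ d * (d * (M1 * k)) / M2 + d * B := by
    have h5 : (M2 : ℝ) * ∑ c ∈ range n, (dgS A T c : ℝ) ^ 2 ≤
        d * (d * T.card) + M2 * (d * SSE.inner A Z) := by exact_mod_cast hZs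
    have h6 : (T.card : ℝ) ≤ M1 * k := by exact_mod_cast hTc
    rw [← mul_le_mul_iff_right₀ hM2']
    refine h5.trans ?_
    have h7 : (M2 : ℝ) * (d * (d * (M1 * k)) / M2 + d * B) = d * (d * (M1 * k)) + M2 * (d * B) := by
      field_simp
    rw [h7]
    exact add_le_add (mul_le_mul_of_nonneg_left (mul_le_mul_of_nonneg_left h6 (by positivity))
      (by positivity)) (mul_le_mul_of_nonneg_left (mul_le_mul_of_nonneg_left hZB (by positivity))
      hM2'.le)
  have h5 : ((r : ℝ) * M) * (k * M +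
      (d - 2).choose (r - 2) * ∑ c ∈ range n, (dgS A T c : ℝ) ^ 2) ≤ (r * M) * (k * M +
      (d - 2).choose (r - 2) * (d * (d * (M1 * k)) / M2 + d * B)) := by
    refine mul_le_mul_of_nonneg_left ?_ (by positivity)
    exact add_le_add le_rfl (mul_le_mul_of_nonneg_left h4 (by positivity))
  calc _ ≤ _ := h1
    _ ≤ (r * M) * (r / M1 * (k * M)) + (r * M) * (k * M +
      (d - 2).choose (r - 2) * (d * (d * (M1 * k)) / M2 + d * B)) :=
        add_le_add h2 (h3.trans h5)
    _ = _ := by ring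

end Mod

end Pool.Agent.H697.SF
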